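import Pool.Agent.N661.BR.Stm
import Pool.Agent.W924.RW.WP

/-!
# Project BR: basic facts on the space `MW`
-/

set_option autoImplicit false
open MeasureTheory Filter Topology Complex ProbabilityTheory
open scoped ContDiff

namespace Pool.Agent.N661.BR

open Pool.Agent.W745.RW (lap dx dy TF Dp Dm W Sol Sys)

theorem meas_eval (w : ℂ) : Measurable (fun f : MW => f w) :=
  (measurable_pi_apply w).comp measurable_subtype_coe

theorem sol (f : MW) : Sol Set.univ 1 f :=
  ⟨one_pos, f.2.1.contDiffOn, fun z _ => by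
    have := f.2.2 z
    simpa using this⟩

theorem W_smooth (f : MW) (a : ℤ) : ContDiff ℝ ∞ (W 1 f a) :=
  contDiffOn_univ.1 ((Pool.Agent.W924.RW.WP.main Set.univ isOpen_univ 1 f (sol f)).1 a)

theorem W_cont (f : MW) (a : ℤ) : Continuous (W 1 f a) := (W_smooth f a).continuous

theorem Dp_W (f : MW) (a : ℤ) (z : ℂ) : Dp 1 (W 1 f a) z = W 1 f (a + 1) z :=
  (Pool.Agent.W924.RW.WP.main Set.univ isOpen_univ 1 f (sol f)).2.1 a z (Set.mem_univ z)

theorem Dm_W (f : MW) (a : ℤ) (z : ℂ) : Dm 1 (W 1 f a) z = -W 1 f (a - 1) z :=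
  (Pool.Agent.W924.RW.WP.main Set.univ isOpen_univ 1 f (sol f)).2.2.1 a z (Set.mem_univ z)

theorem conj_W (f : MW) (a : ℤ) (z : ℂ) :
    (starRingEnd ℂ) (W 1 f a z) = (-1) ^ a.natAbs * W 1 f (-a) z :=
  (Pool.Agent.W924.RW.WP.main Set.univ isOpen_univ 1 f (sol f)).2.2.2 a z (Set.mem_univ z)

theorem W_zero (h : ℝ) (u : ℂ → ℝ) (z : ℂ) : W h u 0 z = (u z : ℂ) := rfl

/-- directional derivatives of `g` at `z` are limits of difference quotients -/
theorem fd_lim {g : ℂ → ℂ} (hg : Differentiable ℝ g) (z v : ℂ) :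
    Tendsto (fun n : ℕ => ((n : ℂ) + 1) * (g (z + ((1 / ((n : ℝ) + 1) : ℝ) : ℂ) * v) - g z)) atTop
      (𝓝 (fderiv ℝ g z v)) := by
  have h1 : HasDerivAt (fun t : ℝ => g (z + (t : ℂ) * v)) (fderiv ℝ g z v) 0 := by
    have h2 : HasDerivAt (fun t : ℝ => z + (t : ℂ) * v) v 0 := by
      have h3 := (Complex.ofRealCLM.hasDerivAt (x := (0 : ℝ))).mul_const v
      have h4 := h3.const_add z
      simpa using h4
    have h5 : HasFDerivAt g (fderiv ℝ g z) (z + ((0 : ℝ) : ℂ) * v) := by
      have : z + ((0 : ℝ) : ℂ) * v = z := by simp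
      rw [this]
      exact (hg z).hasFDerivAt
    exact h5.comp_hasDerivAt 0 h2
  have h6 := hasDerivAt_iff_tendsto_slope_zero.1 h1
  have h7 : Tendsto (fun n : ℕ => 1 / ((n : ℝ) + 1)) atTop (𝓝[≠] 0) := by
    refine tendsto_nhdsWithin_iff.2 ⟨tendsto_one_div_add_atTop_nhds_zero_nat,
      Eventually.of_forall fun n => ?_⟩
    have : (0 : ℝ) < 1 / ((n : ℝ) + 1) := by positivity
    exact this.ne'
  refine (h6.comp h7).congr fun n => ?_
  simp only [Function.comp_apply, zero_add]
  rw [Complex.real_smul]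
  congr 1
  · push_cast
    rw [one_div, inv_inv]
  · simp

theorem meas_W (a : ℤ) (w : ℂ) : Measurable (fun f : MW => W 1 f a w) := by
  have key : ∀ k : ℕ, ∀ w : ℂ, Measurable (fun f : MW => W 1 f (k : ℤ) w) ∧
      Measurable (fun f : MW => W 1 f (-(k : ℤ)) w) := by
    intro k
    induction k with
    | zero =>
      intro w
      have : Measurable (fun f : MW => W 1 f 0 w) :=
        Complex.measurable_ofReal.comp (meas_eval w)
      exact ⟨by simpa using this, by simpa using this⟩
    | succ k ih =>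
      intro w
      have hd : ∀ (f : MW) (a : ℤ), Differentiable ℝ (W 1 f a) := fun f a =>
        (W_smooth f a).differentiable (by simp)
      have hm : ∀ b : ℤ, (∀ w, Measurable (fun f : MW => W 1 f b w)) → ∀ w v : ℂ,
          Measurable (fun f : MW => fderiv ℝ (W 1 f b) w v) := by
        intro b hb w v
        refine measurable_of_tendsto_metrizable (f := fun (n : ℕ) (f : MW) =>
          ((n : ℂ) + 1) * (W 1 f b (w + ((1 / ((n : ℝ) + 1) : ℝ) : ℂ) * v) - W 1 f b w))
          (fun n => ((hb _).sub (hb w)).const_mul _) ?_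
        exact tendsto_pi_nhds.2 fun f => fd_lim (hd f b) w v
      constructor
      · have e : (fun f : MW => W 1 f ((k + 1 : ℕ) : ℤ) w) =
            fun f : MW => ((1 : ℝ) : ℂ) * (fderiv ℝ (W 1 f (k : ℤ)) w 1 -
              I * fderiv ℝ (W 1 f (k : ℤ)) w I) := by
          funext f
          have := Dp_W f k w
          rw [Nat.cast_succ, ← this]
          rfl
        rw [e]
        exact ((hm _ (fun w => (ih w).1) w 1).sub
          ((hm _ (fun w => (ih w).1) w I).const_mul _)).const_mul _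
      · have e : (fun f : MW => W 1 f (-((k + 1 : ℕ) : ℤ)) w) =
            fun f : MW => -(((1 : ℝ) : ℂ) * (fderiv ℝ (W 1 f (-(k : ℤ))) w 1 +
              I * fderiv ℝ (W 1 f (-(k : ℤ))) w I)) := by
          funext f
          have := Dm_W f (-(k : ℤ)) w
          rw [Nat.cast_succ, neg_add, ← sub_eq_add_neg, ← neg_eq_iff_eq_neg.2 this.symm.symm]
          rfl
        rw [e]
        exact (((hm _ (fun w => (ih w).2) w 1).add
          ((hm _ (fun w => (ih w).2) w I).const_mul _)).const_mul _).neg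
  obtain ⟨k, rfl | rfl⟩ := Int.eq_nat_or_neg a
  · exact (key k w).1
  · exact (key k w).2

theorem W_shift (f : MW) (x : ℂ) (a : ℤ) (z : ℂ) : W 1 (shift x f) a z = W 1 f a (z + x) := by
  have hfd : ∀ (g : ℂ → ℂ) (z v : ℂ), fderiv ℝ (fun y => g (y + x)) z v =
      fderiv ℝ g (z + x) v := by
    intro g z v
    rw [fderiv_comp_add_right]
  have hp : ∀ g : ℂ → ℂ, Dp 1 (fun y => g (y + x)) = fun y => Dp 1 g (y + x) := by
    intro g
    funext z
    exact congrArg₂ (fun s t => ((1 : ℝ) : ℂ) * (s - I * t)) (hfd g z 1) (hfd g z I)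
  have hm : ∀ g : ℂ → ℂ, Dm 1 (fun y => g (y + x)) = fun y => Dm 1 g (y + x) := by
    intro g
    funext z
    exact congrArg₂ (fun s t => ((1 : ℝ) : ℂ) * (s + I * t)) (hfd g z 1) (hfd g z I)
  have ip : ∀ (k : ℕ) (g : ℂ → ℂ), (Dp 1)^[k] (fun y => g (y + x)) =
      fun y => (Dp 1)^[k] g (y + x) := by
    intro k
    induction k with
    | zero => intro g; rfl
    | succ k ih => intro g; rw [Function.iterate_succ_apply, hp, ih, Function.iterate_succ_apply]
  have im : ∀ (k : ℕ) (g : ℂ → ℂ), (Dm 1)^[k] (fun y => g (y + x)) =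
      fun y => (Dm 1)^[k] g (y + x) := by
    intro k
    induction k with
    | zero => intro g; rfl
    | succ k ih => intro g; rw [Function.iterate_succ_apply, hm, ih, Function.iterate_succ_apply]
  cases a with
  | ofNat k => exact congrFun (ip k (fun y => ((f y : ℝ) : ℂ))) z
  | negSucc k =>
    exact congrArg (fun s => (-1) ^ (k + 1) * s) (congrFun (im (k + 1) (fun y => ((f y : ℝ) : ℂ))) z)

theorem meas_shift (x : ℂ) : Measurable (shift x) := by
  refine Measurable.subtype_mk ?_
  exact measurable_pi_lambda _ fun y => meas_eval (y + x)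

end Pool.Agent.N661.BR
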