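import Pool.Agent.N661.BR.Defs
import Pool.Agent.Y265.RW.Bes2

/-!
# Project BR (helper661, MP_6b977f_mp): statements of the parts

`sy α = I * exp (- α I)` is the symbol of `W 1` at a unit momentum of direction `α`, and
`rr w α = w · (cos α, sin α)` (both from `Pool.Agent.Y265.RW.Bes2`).
-/

set_option autoImplicit false
open MeasureTheory Filter Topology Complex ProbabilityTheory
open scoped ContDiff

namespace Pool.Agent.N661.BR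

open Pool.Agent.W745.RW (lap dx dy TF Dp W Sys)
open Pool.Agent.Y265.RW (sy rr)

noncomputable section

/-- Fourier coefficients of a measure of directions -/
def cf (ν : Measure ℝ) (j : ℤ) : ℂ := ∫ α, sy α ^ j ∂ν

/-- the quadratic expression `∑ v_j W_j W_{2l-j}` -/
def QV (v : ℤ →₀ ℝ) (l : ℤ) (h : ℝ) (u : ℂ → ℝ) (z : ℂ) : ℂ :=
  ∑ j ∈ v.support, (v j : ℂ) * (W h u j z * W h u (2 * l - j) z)

/-- `v` is balanced: its sums over the even and over the odd indices vanish -/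
def Bal (v : ℤ →₀ ℝ) : Prop :=
  (∑ j ∈ v.support, v j) = 0 ∧ (∑ j ∈ v.support, (-1 : ℝ) ^ j.natAbs * v j) = 0

/-- the second moment of `QV` for the random wave, for a balanced `v` -/
def KV (v : ℤ →₀ ℝ) (l : ℤ) : ℝ := ∑ j ∈ v.support, v j * (v j + v (2 * l - j))

/-- BR/QUART: the second moment of `QV` for a quantum ergodic sequence (no `L⁴` bounds) -/
def S_QUART : Prop := ∀ (Ω : Set ℂ), IsOpen Ω → ∀ (h : ℕ → ℝ) (u : ℕ → ℂ → ℝ), Sys Ω h u →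
  ∀ φ, TF Ω φ → (∀ z, 0 ≤ φ z) → ∀ v : ℤ →₀ ℝ, Bal v → ∀ l : ℤ,
  Tendsto (fun n => ∫ z, φ z * ‖QV v l (h n) (u n) z‖ ^ 2) atTop (𝓝 (KV v l * ∫ z, φ z))

/-- BR/ISO: second moments of finite linear combinations of displaced derivatives -/
def S_ISO : Prop := ∀ (Ω : Set ℂ), IsOpen Ω → ∀ (h : ℕ → ℝ) (u : ℕ → ℂ → ℝ), Sys Ω h u →
  ∀ φ, TF Ω φ → ∀ (k : ℕ) (c : Fin k → ℂ) (a : Fin k → ℤ) (w : Fin k → ℂ),
  Tendsto (fun n => ∫ z, φ z *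
      ‖∑ i, c i * W (h n) (u n) (a i) (z + (h n : ℂ) * w i)‖ ^ 2) atTop
    (𝓝 ((1 / (2 * Real.pi) * ∫ α in (0:ℝ)..(2 * Real.pi),
      ‖∑ i, c i * (sy α ^ (a i) * Complex.exp ((rr (w i) α : ℂ) * I))‖ ^ 2) * ∫ z, φ z))

/-- BR/BASE: from the local measures (with cutoff, on all of `Ω`) to test functions -/
def S_BASE : Prop := ∀ (Ω : Set ℂ), IsOpen Ω → Bornology.IsBounded Ω → Ω.Nonempty →
  ∀ χ : ℝ → ℝ, IsCutoff χ → ∀ (lam : ℕ → ℝ), (∀ n, 0 < lam n) → Tendsto lam atTop atTop →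
  ∀ (u : ℕ → ℂ → ℝ), (∀ n, ContDiffOn ℝ ∞ (u n) Ω) →
  ∀ (k : ℕ) (w : Fin k → ℂ) (t : Fin k → ℝ) (L : ℂ),
  Tendsto (fun n => ((1 / volume.real Ω : ℝ) : ℂ) * ∫ z in Ω,
    Complex.exp (I * ((∑ j, t j * resc χ Ω (lam n) (u n) z (w j) : ℝ) : ℂ))) atTop (𝓝 L) →
  ∀ φ, TF Ω φ → (∀ z, φ z ∈ Set.Icc (0 : ℝ) 1) → ∀ η : ℝ, 0 < η → ∀ᶠ n in atTop,
    ‖((1 / volume.real Ω : ℝ) : ℂ) * (∫ z, (φ z : ℂ) *
      Complex.exp (I * ((∑ j, t j * u n (z + ((1 / √(lam n) : ℝ) : ℂ) * w j) : ℝ) : ℂ))) - L‖ ≤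
      1 - (∫ z, φ z) / volume.real Ω + η

/-- convergence in law of the linear combination `Re ∑ c j W_{a j} (z + h w j)`, up to the mass
which is not seen by the test function -/
def Apx (Ω : Set ℂ) (V : ℝ) (h : ℕ → ℝ) (u : ℕ → ℂ → ℝ) (μ : Measure MW) {k : ℕ}
    (c : Fin k → ℂ) (a : Fin k → ℤ) (w : Fin k → ℂ) : Prop :=
  ∀ φ, TF Ω φ → (∀ z, φ z ∈ Set.Icc (0 : ℝ) 1) → ∀ η : ℝ, 0 < η → ∀ᶠ n in atTop,
    ‖((1 / V : ℝ) : ℂ) * (∫ z, (φ z : ℂ) * Complex.exp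
        (I * (((∑ j, c j * W (h n) (u n) (a j) (z + (h n : ℂ) * w j)).re : ℝ) : ℂ))) -
      ∫ f : MW, Complex.exp (I * (((∑ j, c j * W 1 f (a j) (w j)).re : ℝ) : ℂ)) ∂μ‖ ≤
      1 - (∫ z, φ z) / V + η

/-- BR/LAW: from values to derivatives -/
def S_LAW : Prop := ∀ (Ω : Set ℂ), IsOpen Ω → ∀ (h : ℕ → ℝ) (u : ℕ → ℂ → ℝ), Sys Ω h u →
  ∀ V : ℝ, 0 < V → ∀ μ : Measure MW, IsProbabilityMeasure μ →
  (∀ (k : ℕ) (c w : Fin k → ℂ), Apx Ω V h u μ c (fun _ => 0) w) →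
  ∀ (k : ℕ) (c : Fin k → ℂ) (a : Fin k → ℤ) (w : Fin k → ℂ), Apx Ω V h u μ c a w

/-- BR/LEVY: the second moment of `QV` for the limit -/
def S_LEVY : Prop := ∀ (Ω : Set ℂ), IsOpen Ω → Bornology.IsBounded Ω → Ω.Nonempty →
  ∀ (h : ℕ → ℝ) (u : ℕ → ℂ → ℝ), Sys Ω h u → ∀ μ : Measure MW, IsProbabilityMeasure μ →
  (∀ (k : ℕ) (c : Fin k → ℂ) (a : Fin k → ℤ) (w : Fin k → ℂ),
    Apx Ω (volume.real Ω) h u μ c a w) →
  ∀ v : ℤ →₀ ℝ, Bal v → ∀ l : ℤ,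
    ∫⁻ f : MW, ENNReal.ofReal (‖QV v l 1 f 0‖ ^ 2) ∂μ ≤ ENNReal.ofReal (KV v l)

/-- BR/SEC: second moments of the derivatives -/
def S_SEC : Prop := ∀ (μ : Measure MW), IsProbabilityMeasure μ →
  (∀ w : ℂ, Integrable (fun f : MW => f w ^ 2) μ) → ∀ (m : ℝ) (ν : Measure ℝ),
  IsProbabilityMeasure ν →
  (∀ w w' : ℂ, ∫ f : MW, f w * f w' ∂μ = m * cov ν (w - w')) → ∀ (a : ℤ) (w : ℂ),
    ∫⁻ f : MW, ENNReal.ofReal (‖W 1 f a w‖ ^ 2) ∂μ ≤ ENNReal.ofReal m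

/-- the average of `|W_{2j+p}|²`, `j < N`, at `z` -/
def AV (p : ℤ) (N : ℕ) (f : ℂ → ℝ) (z : ℂ) : ℝ :=
  1 / (N : ℝ) * ∑ j ∈ Finset.range N, ‖W 1 f (2 * (j : ℤ) + p) z‖ ^ 2

/-- BR/FIN: ergodic waves for which the averages `AV` converge in `L²` have a finite fourth
moment -/
def S_FIN : Prop := ∀ (μ : Measure MW), IsProbabilityMeasure μ → IsStationary μ → IsErgodic μ →
  ∀ m : ℝ, (∀ (a : ℤ) (w : ℂ), ∫⁻ f : MW, ENNReal.ofReal (‖W 1 f a w‖ ^ 2) ∂μ ≤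
    ENNReal.ofReal m) →
  (∀ p : ℤ, p = 0 ∨ p = 1 → (∑' k : ℕ, (2 : ENNReal) ^ k *
    (∫⁻ f : MW, ENNReal.ofReal ((AV p (4 ^ (k + 1)) f 0 - AV p (4 ^ k) f 0) ^ 2) ∂μ)) ≠ ⊤) →
  Integrable (fun f : MW => f 0 ^ 4) μ

/-- the four point functions of `μ` are those of the Gaussian wave with the measure `m ν` of
directions -/
structure Four (μ : Measure MW) (m : ℝ) (ν : Measure ℝ) : Prop where
  nonneg : 0 ≤ m
  memLp : ∀ w : ℂ, MemLp (fun f : MW => f w) 4 μ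
  two : ∀ w w' : ℂ, ∫ f : MW, f w * f w' ∂μ = m * cov ν (w - w')
  four : ∀ w : Fin 4 → ℂ, ∫ f : MW, ∏ i, f (w i) ∂μ = m ^ 2 * gauss ν w

/-- the quadratic expression `W_0 W_{2l} - (1/N) ∑_{j<N} W_{2j} W_{2l-2j}` -/
def QQ (h : ℝ) (u : ℂ → ℝ) (N : ℕ) (l : ℤ) (z : ℂ) : ℂ :=
  W h u 0 z * W h u (2 * l) z -
    (1 / (N : ℂ)) * ∑ j ∈ Finset.range N, W h u (2 * (j : ℤ)) z * W h u (2 * l - 2 * (j : ℤ)) z

/-- the second moment of `QQ` for the Gaussian wave whose measure of directions has the Fourier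
coefficients `c` -/
def FN (c : ℤ → ℂ) (N : ℕ) (l : ℤ) : ℝ :=
  1 + ‖c (2 * l)‖ ^ 2 -
    2 / (N : ℝ) * (∑ j ∈ Finset.range N, (‖c (2 * (j : ℤ))‖ ^ 2 + ‖c (2 * (j : ℤ) - 2 * l)‖ ^ 2)) +
    1 / (N : ℝ) ^ 2 * (∑ i ∈ Finset.range N, ∑ j ∈ Finset.range N,
      (‖c (2 * ((i : ℤ) - (j : ℤ)))‖ ^ 2 + ‖c (2 * ((i : ℤ) + (j : ℤ)) - 2 * l)‖ ^ 2))

/-- the covariance of `W_a` and `W_b` at a point -/
def BB (ν : Measure ℝ) (a b : ℤ) : ℂ :=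
  ((-1) ^ a.natAbs + (-1) ^ b.natAbs) / 2 * cf ν (a + b)

/-- BR/F4: fourth moments of the derivatives -/
def S_F4 : Prop := ∀ (μ : Measure MW), IsProbabilityMeasure μ → ∀ (m : ℝ) (ν : Measure ℝ),
  IsProbabilityMeasure ν → Four μ m ν → ∀ a : Fin 4 → ℤ,
    Integrable (fun f : MW => ∏ i, W 1 f (a i) 0) μ ∧
    ∫ f : MW, ∏ i, W 1 f (a i) 0 ∂μ = (m : ℂ) ^ 2 * (BB ν (a 0) (a 1) * BB ν (a 2) (a 3) +
      BB ν (a 0) (a 2) * BB ν (a 1) (a 3) + BB ν (a 0) (a 3) * BB ν (a 1) (a 2))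

/-- BR/FQ: the second moment of `QQ` for the components of the limit -/
def S_FQ : Prop := ∀ (μ : Measure MW), IsProbabilityMeasure μ → ∀ (m : ℝ) (ν : Measure ℝ),
  IsProbabilityMeasure ν →
  (∀ a : Fin 4 → ℤ, Integrable (fun f : MW => ∏ i, W 1 f (a i) 0) μ ∧
    ∫ f : MW, ∏ i, W 1 f (a i) 0 ∂μ = (m : ℂ) ^ 2 * (BB ν (a 0) (a 1) * BB ν (a 2) (a 3) +
      BB ν (a 0) (a 2) * BB ν (a 1) (a 3) + BB ν (a 0) (a 3) * BB ν (a 1) (a 2))) →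
  ∀ N : ℕ, 1 ≤ N → ∀ l : ℤ, Integrable (fun f : MW => ‖QQ 1 f N l 0‖ ^ 2) μ ∧
    ∫ f : MW, ‖QQ 1 f N l 0‖ ^ 2 ∂μ = m ^ 2 * FN (cf ν) N l

/-- BR/WIEN: a theorem of Wiener -/
def S_WIEN : Prop := ∀ ν : Measure ℝ, IsProbabilityMeasure ν → parallel ν = 0 → ∀ l : ℤ,
  Tendsto (fun N => FN (cf ν) N l) atTop (𝓝 (1 + ‖cf ν (2 * l)‖ ^ 2))

/-- the uniform weights on `p, p + 2, …, p + 2 (N - 1)` -/
def vA (p : ℤ) (N : ℕ) : ℤ →₀ ℝ :=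
  ∑ j ∈ Finset.range N, Finsupp.single (2 * (j : ℤ) + p) (1 / (N : ℝ))

/-- BR/GN: the families of quadratic expressions which are used -/
def S_GN : Prop :=
  (∀ N : ℕ, 1 ≤ N → Bal (Finsupp.single 0 1 - vA 0 N) ∧
    (∀ l : ℤ, KV (Finsupp.single 0 1 - vA 0 N) l ≤ if l = 0 then 2 else 1) ∧
    ∀ (l : ℤ) (h : ℝ) (u : ℂ → ℝ) (z : ℂ),
      QV (Finsupp.single 0 1 - vA 0 N) l h u z = QQ h u N l z) ∧
  ∀ (p : ℤ) (N M : ℕ), 1 ≤ N → 1 ≤ M → Bal (vA p N - vA p M) ∧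
    KV (vA p N - vA p M) 0 ≤ 4 * (1 / (N : ℝ) + 1 / (M : ℝ)) ∧
    ∀ (f : MW) (z : ℂ), ‖QV (vA p N - vA p M) 0 1 f z‖ = |AV p N f z - AV p M f z|

/-- BR/J0: a measure is determined modulo `π` by its even Fourier coefficients -/
def S_J0 : Prop := ∀ ν : Measure ℝ, IsProbabilityMeasure ν →
  (∀ l : ℤ, l ≠ 0 → cf ν (2 * l) = 0) → ∀ w : ℂ, cov ν w = J0 ‖w‖

/-- BR/ERG: ergodic stationary waves with finite fourth moment and without plane waves -/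
def S_ERG : Prop := ∀ (μ : Measure MW), IsProbabilityMeasure μ → IsStationary μ → IsErgodic μ →
  Integrable (fun f : MW => f 0 ^ 4) μ → ∀ (m : ℝ) (ν : Measure ℝ), IsProbabilityMeasure ν →
  (∀ w w' : ℂ, ∫ f : MW, f w * f w' ∂μ = m * cov ν (w - w')) → parallel ν = 0 →
  Four μ m ν ∧ ∀ w : ℂ, ∫ f : MW, f w ∂μ = 0

/-- BR/GAU: Gaussian laws -/
def S_GAU : Prop := ∀ (μ : Measure MW), IsProbabilityMeasure μ → IsGaussianLaw μ →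
  ∀ (m : ℝ) (ν : Measure ℝ), IsProbabilityMeasure ν →
  (∀ w w' : ℂ, ∫ f : MW, f w * f w' ∂μ = m * cov ν (w - w')) → Four μ m ν

/-- BR/ID: an infinitely divisible law on the line whose fourth moment is Gaussian -/
def S_ID : Prop := ∀ (ρ : Measure ℝ), IsProbabilityMeasure ρ → ∀ v : ℝ, MemLp id 4 ρ →
  ∫ x, x ∂ρ = 0 → ∫ x, x ^ 2 ∂ρ = v → ∫ x, x ^ 4 ∂ρ = 3 * v ^ 2 →
  (∀ n : ℕ, 1 ≤ n → ∃ ρ' : Measure ℝ, IsProbabilityMeasure ρ' ∧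
    ∀ t : ℝ, charFun ρ t = charFun ρ' t ^ n) →
  ρ = gaussianReal 0 v.toNNReal

end

end Pool.Agent.N661.BR
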