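import Pool.Agent.N661.BR.Fin2
import Pool.Agent.N141.BRUNIF
import Pool.Agent.N141.BRERG4

/-!
# Project BR, second and third theorem, final form
-/

set_option autoImplicit false
open MeasureTheory Filter Topology Complex ProbabilityTheory
open scoped ContDiff ENNReal

namespace Pool.Agent.N661.BR

open Pool.Agent.W745.RW (lap dx dy TF Dp Dm W Sol Sys)

/-- the fourth moments of the components, plane waves allowed -/
theorem comp4 {μ : Measure MW}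
    (hQ : ∀ v : ℤ →₀ ℝ, Bal v → ∀ l : ℤ,
      ∫⁻ f : MW, ENNReal.ofReal (‖QV v l 1 f 0‖ ^ 2) ∂μ ≤ ENNReal.ofReal (KV v l))
    (hmass : ∫⁻ f : MW, ENNReal.ofReal (f 0 ^ 2) ∂μ ≤ 1)
    {S : Type*} [MeasurableSpace S] {P : Measure S} [IsProbabilityMeasure P]
    {κ : Kernel S MW} [IsMarkovKernel κ] (hκ : P.bind κ = μ) (m : S → ℝ)
    (ν : Kernel S ℝ) [IsMarkovKernel ν] (herg : ∀ᵐ s ∂P, IsStationary (κ s) ∧ IsErgodic (κ s))
    (hν : ∀ᵐ s ∂P, ∀ w w' : ℂ, ∫ f : MW, f w * f w' ∂(κ s) = m s * cov (ν s) (w - w')) :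
    ∀ᵐ s ∂P, Integrable (fun f : MW => f 0 ^ 4) (κ s) ∧
      ∫ f : MW, f 0 ^ 4 ∂(κ s) = m s ^ 2 * (3 - 3 / 2 * parallel (ν s)) := by
  have hν2 : ∀ᵐ s ∂P, IsProbabilityMeasure (ν s) ∧
      ∀ w w' : ℂ, ∫ f : MW, f w * f w' ∂(κ s) = m s * cov (ν s) (w - w') :=
    hν.mono fun s hs => ⟨inferInstance, hs⟩
  obtain ⟨k1, k2⟩ := mix_sec' hκ (ne_top_of_le_ne_top ENNReal.one_ne_top hmass) hν2
  have kA := fun p => mix_AV allParts hκ hQ p
  filter_upwards [herg, hν, k1, kA 0, kA 1] with s hs1 hs2 hs3 hs5 hs6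
  have h3 := allParts.sec (κ s) inferInstance (sq_int hs1.1 hs3) (m s) (ν s) inferInstance hs2
  have h4 := allParts.fin (κ s) inferInstance hs1.1 hs1.2 (m s) h3 (by
    rintro p (rfl | rfl)
    · exact hs5
    · exact hs6)
  exact ⟨h4, Pool.Agent.N141.BRERG4.ERG4 (κ s) inferInstance hs1.1 hs1.2 h4 (m s) (ν s)
    inferInstance hs2⟩

theorem ergodic_limit' {μ : Measure MW} [IsProbabilityMeasure μ]
    (hQ : ∀ v : ℤ →₀ ℝ, Bal v → ∀ l : ℤ,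
      ∫⁻ f : MW, ENNReal.ofReal (‖QV v l 1 f 0‖ ^ 2) ∂μ ≤ ENNReal.ofReal (KV v l))
    (hG : ∀ (k : ℕ) (c : Fin k → ℂ) (a : Fin k → ℤ) (w : Fin k → ℂ),
      ∫⁻ f : MW, ENNReal.ofReal (‖∑ i, c i * W 1 f (a i) (w i)‖ ^ 2) ∂μ ≤
        ENNReal.ofReal (SM c a w))
    (hvar : ∫ f : MW, f 0 ^ 2 ∂μ = 1) (hs : IsStationary μ) (he : IsErgodic μ) :
    Good μ ∧ (IsInfinitelyDivisible μ → IsRandomWave μ) :=
  ergodic_limit allParts Pool.Agent.N141.BRUNIF.UNIF hQ hG hvar hs he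

end Pool.Agent.N661.BR
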