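import Pool.Agent.N661.BR.Defs

/-!
# Limits of the local measures of eigenfunctions: Gaussian to fourth order
-/

set_option autoImplicit false
open MeasureTheory

namespace Pool.Agent.N661.BR

/-- `ρ` is Gaussian to fourth order: it is centred, has finite fourth moments, its three point
functions vanish, and its four point functions are given by the formula of Wick -/
structure Gau4 (ρ : Measure MW) : Prop where
  mean : ∀ w : ℂ, ∫ f : MW, f w ∂ρ = 0
  fin : ∀ w : ℂ, Integrable (fun f : MW => f w ^ 4) ρ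
  three : ∀ a b c : ℂ, ∫ f : MW, f a * f b * f c ∂ρ = 0
  four : ∀ a b c d : ℂ, ∫ f : MW, f a * f b * f c * f d ∂ρ =
    (∫ f : MW, f a * f b ∂ρ) * (∫ f : MW, f c * f d ∂ρ) +
    (∫ f : MW, f a * f c ∂ρ) * (∫ f : MW, f b * f d ∂ρ) +
    (∫ f : MW, f a * f d ∂ρ) * ∫ f : MW, f b * f c ∂ρ

end Pool.Agent.N661.BR
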