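import Pool.Agent.N661.BR.Stm4

/-!
# Project BR/BH, fifth part: spectral measures
-/

set_option autoImplicit false
open MeasureTheory Filter Topology Complex ProbabilityTheory
open scoped ContDiff

namespace Pool.Agent.N661.BR

open Pool.Agent.W745.RW (lap dx dy TF Dp W Sys)
open Pool.Agent.Y265.RW (sy rr)

noncomputable section

/-- BR/BOCH: the spectral measure of a stationary wave -/
def S_BOCH : Prop := ∀ μ : Measure MW, IsProbabilityMeasure μ → IsStationary μ →
  Integrable (fun f : MW => f 0 ^ 2) μ →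
  ∃ (m : ℝ) (ν : Measure ℝ), IsProbabilityMeasure ν ∧ 0 ≤ m ∧
    ∀ w w' : ℂ, ∫ f : MW, f w * f w' ∂μ = m * cov ν (w - w')

/-- BR/DOM: a spectral measure which is dominated by the uniform one has no atoms modulo `π` -/
def S_DOM : Prop := ∀ (m C : ℝ) (ν : Measure ℝ), 0 < m → IsProbabilityMeasure ν →
  (∀ (k : ℕ) (c : Fin k → ℝ) (w : Fin k → ℂ),
    m * ∑ i, ∑ j, c i * c j * cov ν (w i - w j) ≤
      C * ∑ i, ∑ j, c i * c j * J0 ‖w i - w j‖) → parallel ν = 0

end

end Pool.Agent.N661.BR
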