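import Pool.Agent.N661.BR.Fin3
import Pool.Agent.N661.BR.Stm5
import Pool.Agent.N661.BR.Defs2
import Pool.Agent.N878.BRTHREE

/-!
# Project BR: every ergodic limit point
-/

set_option autoImplicit false
open MeasureTheory Filter Topology Complex ProbabilityTheory
open scoped ContDiff ENNReal

namespace Pool.Agent.N661.BR

open Pool.Agent.W745.RW (lap dx dy TF Dp Dm W Sol Sys)
open Pool.Agent.Y265.RW (sy rr)

/-- the square of the modulus of a real combination of exponentials -/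
theorem nsq_real {k : ℕ} (c : Fin k → ℝ) (r : Fin k → ℝ) :
    ‖∑ i, (c i : ℂ) * Complex.exp ((r i : ℂ) * I)‖ ^ 2 =
      ∑ i, ∑ j, c i * c j * Real.cos (r i - r j) := by
  rw [← Complex.normSq_eq_norm_sq, Complex.normSq_apply, Complex.re_sum, Complex.im_sum]
  simp only [Complex.re_ofReal_mul, Complex.im_ofReal_mul,
    Complex.exp_ofReal_mul_I_re, Complex.exp_ofReal_mul_I_im]
  rw [Finset.sum_mul_sum, Finset.sum_mul_sum, ← Finset.sum_add_distrib]
  refine Finset.sum_congr rfl fun i _ => ?_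
  rw [← Finset.sum_add_distrib]
  refine Finset.sum_congr rfl fun j _ => ?_
  rw [Real.cos_sub]
  ring

theorem SM_real {k : ℕ} (c : Fin k → ℝ) (w : Fin k → ℂ) :
    SM (fun i => (c i : ℂ)) (fun _ => 0) w = ∑ i, ∑ j, c i * c j * J0 ‖w i - w j‖ := by
  simp only [← Pool.Agent.N141.BRUNIF.cov_unif]
  unfold SM cov
  simp only [Pool.Agent.N141.BRUNIF.integral_unif, smul_eq_mul]
  have h1 : ∀ α : ℝ, ‖∑ i, (c i : ℂ) * (sy α ^ (0 : ℤ) *
      Complex.exp ((rr (w i) α : ℂ) * I))‖ ^ 2 = ∑ i, ∑ j, c i * c j *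
        Real.cos ((w i - w j).re * Real.cos α + (w i - w j).im * Real.sin α) := by
    intro α
    simp only [zpow_zero, one_mul]
    rw [nsq_real]
    refine Finset.sum_congr rfl fun i _ => Finset.sum_congr rfl fun j _ => ?_
    congr 2
    simp only [rr, Complex.sub_re, Complex.sub_im]
    ring
  simp_rw [h1]
  rw [intervalIntegral.integral_finsetSum fun i _ => Continuous.intervalIntegrable (by fun_prop) _ _,
    Finset.mul_sum]
  refine Finset.sum_congr rfl fun i _ => ?_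
  rw [intervalIntegral.integral_finsetSum fun j _ => Continuous.intervalIntegrable (by fun_prop) _ _,
    Finset.mul_sum]
  refine Finset.sum_congr rfl fun j _ => ?_
  rw [intervalIntegral.integral_const_mul]
  ring

section comp

variable {ρ : Measure MW} [IsProbabilityMeasure ρ]

omit [IsProbabilityMeasure ρ] in
theorem prod_int (hi : ∀ w : ℂ, Integrable (fun f : MW => f w ^ 2) ρ) (w w' : ℂ) :
    Integrable (fun f : MW => f w * f w') ρ := by
  refine Integrable.mono' ((hi w).add (hi w'))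
    ((meas_eval w).mul (meas_eval w')).aestronglyMeasurable (Eventually.of_forall fun f => ?_)
  rw [Pi.add_apply, Real.norm_eq_abs, abs_le]
  constructor <;> nlinarith [sq_nonneg (f w + f w'), sq_nonneg (f w - f w'), sq_nonneg (f w),
    sq_nonneg (f w')]

/-- the spectral measure of a dominated component has no atoms -/
theorem comp_spec (hB : S_BOCH) (hD : S_DOM) (hs : IsStationary ρ)
    (h0 : Integrable (fun f : MW => f 0 ^ 2) ρ) {C : ℝ} (hC : 0 ≤ C)
    (hG : ∀ (k : ℕ) (c : Fin k → ℝ) (w : Fin k → ℂ),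
      ∫⁻ f : MW, ENNReal.ofReal ((∑ i, c i * f (w i)) ^ 2) ∂ρ ≤
        ENNReal.ofReal (C * ∑ i, ∑ j, c i * c j * J0 ‖w i - w j‖)) :
    ∃ (m : ℝ) (ν : Measure ℝ), IsProbabilityMeasure ν ∧ parallel ν = 0 ∧
      ∀ w w' : ℂ, ∫ f : MW, f w * f w' ∂ρ = m * cov ν (w - w') := by
  obtain ⟨m, ν, hν, hm, h2⟩ := hB ρ inferInstance hs h0
  rcases hm.eq_or_lt with hm | hm
  · refine ⟨0, unif, Pool.Agent.N141.BRUNIF.prob, Pool.Agent.N141.BRUNIF.par, fun w w' => ?_⟩
    rw [h2, ← hm, zero_mul, zero_mul]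
  · refine ⟨m, ν, hν, hD m C ν hm hν fun k c w => ?_, h2⟩
    have hi := sq_int hs h0
    have h3 := hG k c w
    have e1 : ∀ f : MW, (∑ i, c i * f (w i)) ^ 2 = ∑ i, ∑ j, c i * c j * (f (w i) * f (w j)) := by
      intro f
      rw [sq, Finset.sum_mul_sum]
      refine Finset.sum_congr rfl fun i _ => Finset.sum_congr rfl fun j _ => ?_
      ring
    have i1 : Integrable (fun f : MW => (∑ i, c i * f (w i)) ^ 2) ρ := by
      simp only [e1]
      exact integrable_finsetSum _ fun i _ => integrable_finsetSum _ fun j _ =>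
        (prod_int hi (w i) (w j)).const_mul _
    have e2 : ∫ f : MW, (∑ i, c i * f (w i)) ^ 2 ∂ρ =
        m * ∑ i, ∑ j, c i * c j * cov ν (w i - w j) := by
      simp only [e1]
      rw [integral_finsetSum _ fun i _ => integrable_finsetSum _ fun j _ =>
        (prod_int hi (w i) (w j)).const_mul _, Finset.mul_sum]
      refine Finset.sum_congr rfl fun i _ => ?_
      rw [integral_finsetSum _ fun j _ => (prod_int hi (w i) (w j)).const_mul _, Finset.mul_sum]
      refine Finset.sum_congr rfl fun j _ => ?_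
      rw [integral_const_mul, h2]
      ring
    rw [← ofReal_integral_eq_lintegral_ofReal i1 (Eventually.of_forall fun f => by positivity),
      e2] at h3
    refine (ENNReal.ofReal_le_ofReal_iff (mul_nonneg hC ?_)).1 h3
    rw [← SM_real]
    unfold SM
    have : 0 ≤ ∫ α in (0:ℝ)..(2 * Real.pi), ‖∑ i, ((c i : ℝ) : ℂ) *
        (sy α ^ (0 : ℤ) * Complex.exp ((rr (w i) α : ℂ) * I))‖ ^ 2 :=
      intervalIntegral.integral_nonneg (by positivity) fun x _ => by positivity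
    positivity

theorem gau4_of {m : ℝ} {ν : Measure ℝ} (H : Four ρ m ν) (h0 : ∀ w : ℂ, ∫ f : MW, f w ∂ρ = 0)
    (hs : IsStationary ρ) (hν : IsProbabilityMeasure ν) (hp : parallel ν = 0) : Gau4 ρ := by
  refine ⟨h0, H.i4, Pool.Agent.N878.BR.THREE ρ inferInstance hs m ν hν H hp, fun a b c d => ?_⟩
  rw [H.four']
  simp only [H.two]
  ring

theorem gauss_law {m : ℝ} {ν : Measure ℝ} (H : Four ρ m ν) (h0 : ∀ w : ℂ, ∫ f : MW, f w ∂ρ = 0)
    (hd : IsInfinitelyDivisible ρ) : IsGaussianLaw ρ := by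
  intro k w t
  rw [id_wave allParts.id H h0 hd w t, H.lin2]

end comp

section mix

variable {S : Type*} [MeasurableSpace S] [MeasurableSingletonClass S] {P : Measure S}
  [IsProbabilityMeasure P] {κ : Kernel S MW} [IsMarkovKernel κ] {μ : Measure MW}

omit [IsProbabilityMeasure P] [IsMarkovKernel κ] in
/-- a component of positive weight is dominated by the mixture -/
theorem dom_lint (hκ : P.bind κ = μ) (s : S) {F : MW → ℝ≥0∞} (hF : Measurable F) :
    P {s} * ∫⁻ f, F f ∂(κ s) ≤ ∫⁻ f, F f ∂μ := by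
  rw [dis hκ hF]
  have h1 : ∫⁻ x in {s}, ∫⁻ f, F f ∂(κ x) ∂P = (∫⁻ f, F f ∂(κ s)) * P {s} := by
    rw [Measure.restrict_singleton, lintegral_smul_measure, lintegral_dirac, smul_eq_mul, mul_comm]
  rw [mul_comm, ← h1]
  exact setLIntegral_le_lintegral _ _

/-- **Countable mixtures of ergodic laws** -/
theorem every (hB : S_BOCH) (hD : S_DOM) [Countable S]
    (hQ : ∀ v : ℤ →₀ ℝ, Bal v → ∀ l : ℤ,
      ∫⁻ f : MW, ENNReal.ofReal (‖QV v l 1 f 0‖ ^ 2) ∂μ ≤ ENNReal.ofReal (KV v l))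
    (hmass : ∫⁻ f : MW, ENNReal.ofReal (f 0 ^ 2) ∂μ ≤ 1)
    (hG : ∀ (k : ℕ) (c : Fin k → ℂ) (a : Fin k → ℤ) (w : Fin k → ℂ),
      ∫⁻ f : MW, ENNReal.ofReal (‖∑ i, c i * W 1 f (a i) (w i)‖ ^ 2) ∂μ ≤
        ENNReal.ofReal (SM c a w))
    (hκ : P.bind κ = μ) (herg : ∀ s, P {s} ≠ 0 → IsStationary (κ s) ∧ IsErgodic (κ s)) :
    (∀ s, P {s} ≠ 0 → Gau4 (κ s) ∧ (IsInfinitelyDivisible (κ s) → IsGaussianLaw (κ s))) ∧
    (∫ f : MW, f 0 ^ 2 ∂μ = 1 → (∀ s, P {s} ≠ 0 → Good (κ s)) ∧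
      ((∀ s, P {s} ≠ 0 → IsInfinitelyDivisible (κ s)) → IsRandomWave μ)) := by
  have hm0 : Measurable (fun f : MW => ENNReal.ofReal (f 0 ^ 2)) :=
    ENNReal.measurable_ofReal.comp ((meas_eval 0).pow_const 2)
  -- second moments
  have k1 : ∀ s, P {s} ≠ 0 → Integrable (fun f : MW => f 0 ^ 2) (κ s) := by
    intro s hs
    refine ⟨((meas_eval 0).pow_const 2).aestronglyMeasurable, ?_⟩
    rw [hasFiniteIntegral_iff_ofReal (Eventually.of_forall fun f => by positivity)]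
    by_contra h
    rw [not_lt, top_le_iff] at h
    have h1 := (dom_lint hκ s hm0).trans hmass
    rw [h, ENNReal.mul_top hs] at h1
    exact absurd h1 (by simp)
  -- spectral measures
  have k2 : ∀ s, P {s} ≠ 0 → ∃ (m : ℝ) (ν : Measure ℝ), IsProbabilityMeasure ν ∧
      parallel ν = 0 ∧ ∀ w w' : ℂ, ∫ f : MW, f w * f w' ∂(κ s) = m * cov ν (w - w') := by
    intro s hs
    have hp1 : P {s} ≠ ⊤ := measure_ne_top _ _
    have hp : 0 < (P {s}).toReal := ENNReal.toReal_pos hs hp1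
    refine comp_spec hB hD (herg s hs).1 (k1 s hs) (C := ((P {s}).toReal)⁻¹) (by positivity)
      fun k c w => ?_
    have h1 := dom_lint hκ s (F := fun f : MW => ENNReal.ofReal ((∑ i, c i * f (w i)) ^ 2))
      (ENNReal.measurable_ofReal.comp ((Finset.measurable_sum _ fun i _ =>
        (meas_eval (w i)).const_mul _).pow_const 2))
    have h2 := hG k (fun i => (c i : ℂ)) (fun _ => 0) w
    rw [SM_real] at h2
    have e1 : ∀ f : MW, ‖∑ i, (c i : ℂ) * W 1 f 0 (w i)‖ ^ 2 = (∑ i, c i * f (w i)) ^ 2 := by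
      intro f
      have : ∑ i, (c i : ℂ) * W 1 f 0 (w i) = ((∑ i, c i * f (w i) : ℝ) : ℂ) := by
        push_cast
        refine Finset.sum_congr rfl fun i _ => ?_
        rw [W_zero]
      rw [this, Complex.norm_real, Real.norm_eq_abs, sq_abs]
    simp only [e1] at h2
    have h3 := h1.trans h2
    have h4 : ENNReal.ofReal (((P {s}).toReal)⁻¹ * ∑ i, ∑ j, c i * c j * J0 ‖w i - w j‖) =
        (P {s})⁻¹ * ENNReal.ofReal (∑ i, ∑ j, c i * c j * J0 ‖w i - w j‖) := by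
      rw [ENNReal.ofReal_mul (by positivity), ENNReal.ofReal_inv_of_pos hp,
        ENNReal.ofReal_toReal hp1]
    rw [h4]
    calc ∫⁻ f : MW, ENNReal.ofReal ((∑ i, c i * f (w i)) ^ 2) ∂(κ s) =
          (P {s})⁻¹ * (P {s} * ∫⁻ f : MW, ENNReal.ofReal ((∑ i, c i * f (w i)) ^ 2) ∂(κ s)) := by
          rw [← mul_assoc, ENNReal.inv_mul_cancel hs hp1, one_mul]
      _ ≤ _ := by gcongr
  have kA : ∀ p s, P {s} ≠ 0 → (∑' k : ℕ, (2 : ENNReal) ^ k *
      (∫⁻ f : MW, ENNReal.ofReal ((AV p (4 ^ (k + 1)) f 0 - AV p (4 ^ k) f 0) ^ 2) ∂(κ s))) ≠ ⊤ :=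
    fun p => ae_iff_of_countable.1 (mix_AV allParts hκ hQ p)
  have k3 : ∀ s, P {s} ≠ 0 → ∃ (m : ℝ) (ν : Measure ℝ), IsProbabilityMeasure ν ∧
      parallel ν = 0 ∧ Four (κ s) m ν ∧ ∀ w : ℂ, ∫ f : MW, f w ∂(κ s) = 0 := by
    intro s hs
    obtain ⟨m, ν, hν, hpar, h2⟩ := k2 s hs
    exact ⟨m, ν, hν, hpar, (erg_four allParts (herg s hs).1 (herg s hs).2 (k1 s hs) hν hpar h2
      fun p _ => kA p s hs).2⟩
  refine ⟨fun s hs => ?_, fun hvar => ?_⟩
  · obtain ⟨m, ν, hν, hpar, h1, h2⟩ := k3 s hs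
    exact ⟨gau4_of h1 h2 (herg s hs).1 hν hpar, gauss_law h1 h2⟩
  · have hex : ∀ s, ∃ (m : ℝ) (ν : Measure ℝ), P {s} ≠ 0 → IsProbabilityMeasure ν ∧
        parallel ν = 0 ∧ ∀ w w' : ℂ, ∫ f : MW, f w * f w' ∂(κ s) = m * cov ν (w - w') := by
      intro s
      by_cases hs : P {s} = 0
      · exact ⟨0, 0, fun h => absurd hs h⟩
      · obtain ⟨m, ν, h⟩ := k2 s hs
        exact ⟨m, ν, fun _ => h⟩
    choose m ν hmν using hex
    have hν : ∀ᵐ s ∂P, IsProbabilityMeasure (ν s) ∧ parallel (ν s) = 0 ∧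
        ∀ w w' : ℂ, ∫ f : MW, f w * f w' ∂(κ s) = m s * cov (ν s) (w - w') :=
      ae_iff_of_countable.2 hmν
    have he : ∀ᵐ s ∂P, IsStationary (κ s) ∧ IsErgodic (κ s) := ae_iff_of_countable.2 herg
    refine ⟨ae_iff_of_countable.1 (ergodic_case allParts hQ hvar hκ m ν hν he), fun hd => ?_⟩
    have hd' : ∀ᵐ s ∂P, IsInfinitelyDivisible (κ s) := ae_iff_of_countable.2 hd
    refine divisible_case allParts hQ hvar hκ m ν hν ?_
    filter_upwards [he, hd'] with s h1 h2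
    exact Or.inl ⟨h1.1, h1.2, h2⟩

end mix

end Pool.Agent.N661.BR
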