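import Pool.Agent.N661.BR.Stm5

/-!
# Project BR/BH, sixth part: three point functions
-/

set_option autoImplicit false
open MeasureTheory Filter Topology Complex ProbabilityTheory
open scoped ContDiff

namespace Pool.Agent.N661.BR

open Pool.Agent.W745.RW (lap dx dy TF Dp W Sys)
open Pool.Agent.Y265.RW (sy rr)

noncomputable section

/-- BR/THREE: the three point functions vanish -/
def S_THREE : Prop := ∀ (μ : Measure MW), IsProbabilityMeasure μ → IsStationary μ →
  ∀ (m : ℝ) (ν : Measure ℝ), IsProbabilityMeasure ν → Four μ m ν → parallel ν = 0 →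
  ∀ a b c : ℂ, ∫ f : MW, f a * f b * f c ∂μ = 0

end

end Pool.Agent.N661.BR
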