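import Pool.Agent.N661.BR.Every
import Pool.Agent.N87.BRDOM

/-!
# Project BR: countable mixtures of ergodic laws, final form
-/

set_option autoImplicit false
open MeasureTheory Filter Topology Complex ProbabilityTheory
open scoped ContDiff ENNReal

namespace Pool.Agent.N661.BR

open Pool.Agent.W745.RW (lap dx dy TF Dp Dm W Sol Sys)

/-- countable mixtures of ergodic laws, with a concrete mixture -/
theorem every_sum (hB : S_BOCH) {μ : Measure MW} [IsProbabilityMeasure μ]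
    (hQ : ∀ v : ℤ →₀ ℝ, Bal v → ∀ l : ℤ,
      ∫⁻ f : MW, ENNReal.ofReal (‖QV v l 1 f 0‖ ^ 2) ∂μ ≤ ENNReal.ofReal (KV v l))
    (hmass : ∫⁻ f : MW, ENNReal.ofReal (f 0 ^ 2) ∂μ ≤ 1)
    (hG : ∀ (k : ℕ) (c : Fin k → ℂ) (a : Fin k → ℤ) (w : Fin k → ℂ),
      ∫⁻ f : MW, ENNReal.ofReal (‖∑ i, c i * W 1 f (a i) (w i)‖ ^ 2) ∂μ ≤
        ENNReal.ofReal (SM c a w))
    (p : ℕ → ℝ≥0∞) (ρ : ℕ → Measure MW) (hμ : μ = Measure.sum fun n => p n • ρ n)
    (hρ : ∀ n, p n ≠ 0 → IsProbabilityMeasure (ρ n) ∧ IsStationary (ρ n) ∧ IsErgodic (ρ n)) :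
    (∀ n, p n ≠ 0 → Gau4 (ρ n) ∧ (IsInfinitelyDivisible (ρ n) → IsGaussianLaw (ρ n)) ∧
      (∫ f : MW, f 0 ^ 2 ∂μ = 1 → ∀ w w' : ℂ, ∫ f : MW, f w * f w' ∂(ρ n) = J0 ‖w - w'‖)) ∧
    (∫ f : MW, f 0 ^ 2 ∂μ = 1 → (∀ n, p n ≠ 0 → IsInfinitelyDivisible (ρ n)) →
      IsRandomWave μ) := by
  classical
  let κ0 : ℕ → Measure MW := fun n => if p n = 0 then μ else ρ n
  have hκp : ∀ n, IsProbabilityMeasure (κ0 n) := by
    intro n
    by_cases h : p n = 0
    · simp only [κ0, if_pos h]; infer_instance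
    · simp only [κ0, if_neg h]; exact (hρ n h).1
  let κ : Kernel ℕ MW := ⟨κ0, measurable_from_nat⟩
  haveI : IsMarkovKernel κ := ⟨fun n => hκp n⟩
  let P : Measure ℕ := Measure.sum fun n => p n • Measure.dirac n
  have hpk : ∀ n, p n • κ0 n = p n • ρ n := by
    intro n
    by_cases h : p n = 0
    · simp [h]
    · simp only [κ0, if_neg h]
  have hPs : ∀ n, P {n} = p n := by
    intro n
    rw [Measure.sum_apply _ (MeasurableSet.singleton n), tsum_eq_single n]
    · simp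
    · intro b hb
      simp [hb]
  have hsum : ∑' n, p n = 1 := by
    have h1 : μ Set.univ = 1 := measure_univ
    rw [hμ, Measure.sum_apply _ MeasurableSet.univ] at h1
    rw [← h1]
    refine tsum_congr fun n => ?_
    by_cases h : p n = 0
    · simp [h]
    · haveI := (hρ n h).1
      simp
  haveI : IsProbabilityMeasure P := by
    constructor
    rw [Measure.sum_apply _ MeasurableSet.univ, ← hsum]
    refine tsum_congr fun n => ?_
    simp
  have hκ : P.bind κ = μ := by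
    rw [hμ]
    ext s hs
    rw [Measure.bind_apply hs κ.measurable.aemeasurable, lintegral_sum_measure,
      Measure.sum_apply _ hs]
    refine tsum_congr fun n => ?_
    rw [lintegral_smul_measure, lintegral_dirac, ← hpk n]
    rfl
  have herg : ∀ s, P {s} ≠ 0 → IsStationary (κ s) ∧ IsErgodic (κ s) := by
    intro s hs
    rw [hPs] at hs
    have e : κ s = ρ s := if_neg hs
    rw [e]
    exact (hρ s hs).2
  obtain ⟨h1, h2⟩ := every hB Pool.Agent.N87.BRDOM.DOM hQ hmass hG hκ herg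
  refine ⟨fun n hn => ?_, fun hv hd => (h2 hv).2 fun s hs => ?_⟩
  · have e : κ n = ρ n := if_neg hn
    have hn' : P {n} ≠ 0 := by rwa [hPs]
    rw [← e]
    exact ⟨(h1 n hn').1, (h1 n hn').2, fun hv => ((h2 hv).1 n hn').two⟩
  · rw [hPs] at hs
    have e : κ s = ρ s := if_neg hs
    rw [e]
    exact hd s hs

end Pool.Agent.N661.BR
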