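import Pool.Agent.N661.BR.Fin
import Pool.Agent.N878.BRTHREE

/-!
# Project BR: ergodic components, with the three point functions
-/

set_option autoImplicit false
open MeasureTheory Filter Topology Complex ProbabilityTheory
open scoped ContDiff ENNReal

namespace Pool.Agent.N661.BR

open Pool.Agent.W745.RW (lap dx dy TF Dp Dm W Sol Sys)

/-- ergodic components, all moments up to order four -/
theorem ergodic_case3 {μ : Measure MW}
    (hQ : ∀ v : ℤ →₀ ℝ, Bal v → ∀ l : ℤ,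
      ∫⁻ f : MW, ENNReal.ofReal (‖QV v l 1 f 0‖ ^ 2) ∂μ ≤ ENNReal.ofReal (KV v l))
    (hvar : ∫ f : MW, f 0 ^ 2 ∂μ = 1)
    {S : Type*} [MeasurableSpace S] {P : Measure S} [IsProbabilityMeasure P]
    {κ : Kernel S MW} [IsMarkovKernel κ] (hκ : P.bind κ = μ) (m : S → ℝ) (ν : S → Measure ℝ)
    (hν : ∀ᵐ s ∂P, IsProbabilityMeasure (ν s) ∧ parallel (ν s) = 0 ∧
      ∀ w w' : ℂ, ∫ f : MW, f w * f w' ∂(κ s) = m s * cov (ν s) (w - w'))
    (h : ∀ᵐ s ∂P, IsStationary (κ s) ∧ IsErgodic (κ s)) :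
    ∀ᵐ s ∂P, Good (κ s) ∧ (∀ w : ℂ, ∫ f : MW, f w ∂(κ s) = 0) ∧
      ∀ a b c : ℂ, ∫ f : MW, f a * f b * f c ∂(κ s) = 0 := by
  filter_upwards [mixture allParts hQ hvar hκ m ν hν (h.mono fun s hs => Or.inl hs), h, hν] with
    s hs h1 h2
  exact ⟨good_of hs.2.2.1 hs.1 hs.2.1, hs.2.2.2 h1,
    Pool.Agent.N878.BR.THREE (κ s) inferInstance h1.1 (m s) (ν s) h2.1 hs.2.2.1 h2.2.1⟩

end Pool.Agent.N661.BR
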