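import Pool.Agent.N661.BR.Main
import Pool.Agent.N916.BRF4
import Pool.Agent.N916.BRSEC
import Pool.Agent.N511.BRLAW
import Pool.Agent.N511.BRISO
import Pool.Agent.N901.BRLEVY
import Pool.Agent.N136.BRFIN
import Pool.Agent.N868.BRID
import Pool.Agent.N868.BRWIEN
import Pool.Agent.N163.BRBASE
import Pool.Agent.N426.BRQUART
import Pool.Agent.N278.BRGAU
import Pool.Agent.N278.BRJ0
import Pool.Agent.N507.BRGN
import Pool.Agent.N717.BRFQ

/-!
# Project BR: all parts
-/

set_option autoImplicit false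

namespace Pool.Agent.N661.BR

theorem parts (hE : S_ERG) : Parts where
  quart := Pool.Agent.N426.BRQUART.QUART
  iso := Pool.Agent.N511.BRISO.ISO
  base := Pool.Agent.N163.BR.BASE
  law := Pool.Agent.N511.BRLAW.LAW
  levy := Pool.Agent.N901.BRLEVY.LEVY
  sec := Pool.Agent.N916.BR.SEC
  fin := Pool.Agent.N136.BRFIN.FIN
  f4 := Pool.Agent.N916.BR.F4
  fq := Pool.Agent.N717.BRFQ.FQ
  wien := Pool.Agent.N868.BRWIEN.WIEN
  gn := Pool.Agent.N507.BRGN.GN
  j0 := Pool.Agent.N278.BR.J0cov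
  erg := hE
  gau := Pool.Agent.N278.BR.GAU
  id := Pool.Agent.N868.BRID.ID

end Pool.Agent.N661.BR
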