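import Pool.Agent.N661.BR.Base

/-!
# Project BR: the mixture argument
-/

set_option autoImplicit false
open MeasureTheory Filter Topology Complex ProbabilityTheory
open scoped ContDiff ENNReal

namespace Pool.Agent.N661.BR

open Pool.Agent.W745.RW (lap dx dy TF Dp Dm W Sol Sys)

variable {S : Type*} [MeasurableSpace S] {P : Measure S} [IsProbabilityMeasure P]
  {κ : Kernel S MW} [IsMarkovKernel κ] {μ : Measure MW}

theorem meas_QQ (N : ℕ) (l : ℤ) : Measurable (fun f : MW => QQ 1 f N l 0) := by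
  unfold QQ
  refine ((meas_W 0 0).mul (meas_W _ 0)).sub (Measurable.const_mul ?_ _)
  exact Finset.measurable_sum _ fun j _ => (meas_W _ 0).mul (meas_W _ 0)

theorem meas_AV (p : ℤ) (N : ℕ) (z : ℂ) : Measurable (fun f : MW => AV p N f z) := by
  unfold AV
  refine Measurable.const_mul ?_ _
  exact Finset.measurable_sum _ fun j _ => ((meas_W _ z).norm.pow_const 2)

omit [IsProbabilityMeasure P] [IsMarkovKernel κ] in
theorem dis (hκ : P.bind κ = μ) {F : MW → ℝ≥0∞} (hF : Measurable F) :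
    ∫⁻ f, F f ∂μ = ∫⁻ s, ∫⁻ f, F f ∂(κ s) ∂P := by
  rw [← hκ, Measure.lintegral_bind κ.measurable.aemeasurable hF.aemeasurable]

theorem cov_zero (ν : Measure ℝ) [IsProbabilityMeasure ν] : cov ν 0 = 1 := by
  unfold cov
  simp

theorem cf_zero (ν : Measure ℝ) [IsProbabilityMeasure ν] : cf ν 0 = 1 := by
  unfold cf
  simp

/-- second moment of `QQ` for one component -/
theorem comp_QQ (hF4 : S_F4) (hFQ : S_FQ) {ρ : Measure MW} [IsProbabilityMeasure ρ] {m : ℝ}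
    {ν : Measure ℝ} [IsProbabilityMeasure ν] (h4 : Four ρ m ν) {N : ℕ} (hN : 1 ≤ N) (l : ℤ) :
    ∫⁻ f : MW, ENNReal.ofReal (‖QQ 1 f N l 0‖ ^ 2) ∂ρ = ENNReal.ofReal (m ^ 2 * FN (cf ν) N l) := by
  obtain ⟨h1, h2⟩ := hFQ ρ inferInstance m ν inferInstance
    (hF4 ρ inferInstance m ν inferInstance h4) N hN l
  rw [← h2, ofReal_integral_eq_lintegral_ofReal h1 (Eventually.of_forall fun f => by positivity)]

theorem core (hF4 : S_F4) (hFQ : S_FQ) (hW : S_WIEN) (hJ : S_J0) {m : S → ℝ}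
    {ν : S → Measure ℝ}
    (hm : ∀ᵐ s ∂P, ∫⁻ f : MW, ENNReal.ofReal (f 0 ^ 2) ∂(κ s) = ENNReal.ofReal (m s))
    (hm1 : ∫⁻ s, ENNReal.ofReal (m s) ∂P = 1)
    (hν : ∀ᵐ s ∂P, IsProbabilityMeasure (ν s) ∧ parallel (ν s) = 0 ∧ Four (κ s) (m s) (ν s))
    (hQ : ∀ N : ℕ, 1 ≤ N → ∀ l : ℤ,
      ∫⁻ s, ∫⁻ f : MW, ENNReal.ofReal (‖QQ 1 f N l 0‖ ^ 2) ∂(κ s) ∂P ≤
        ENNReal.ofReal (if l = 0 then 2 else 1)) :
    ∀ᵐ s ∂P, m s = 1 ∧ ∀ w : ℂ, cov (ν s) w = J0 ‖w‖ := by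
  -- the limits
  have hlim : ∀ l : ℤ, ∀ᵐ s ∂P, Tendsto (fun N : ℕ => ∫⁻ f : MW,
      ENNReal.ofReal (‖QQ 1 f (N + 1) l 0‖ ^ 2) ∂(κ s)) atTop
      (𝓝 (ENNReal.ofReal (m s ^ 2 * (1 + ‖cf (ν s) (2 * l)‖ ^ 2)))) := by
    intro l
    filter_upwards [hν] with s hs
    obtain ⟨h1, h2, h3⟩ := hs
    have e : (fun N : ℕ => ∫⁻ f : MW, ENNReal.ofReal (‖QQ 1 f (N + 1) l 0‖ ^ 2) ∂(κ s)) =
        fun N : ℕ => ENNReal.ofReal (m s ^ 2 * FN (cf (ν s)) (N + 1) l) := by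
      funext N
      exact comp_QQ hF4 hFQ h3 (Nat.le_add_left 1 N) l
    rw [e]
    have h4 := (hW (ν s) h1 h2 l).comp (tendsto_add_atTop_nat 1)
    exact (ENNReal.continuous_ofReal.tendsto _).comp (h4.const_mul (m s ^ 2))
  set H : ℤ → S → ℝ≥0∞ := fun l s => liminf (fun N : ℕ => ∫⁻ f : MW,
      ENNReal.ofReal (‖QQ 1 f (N + 1) l 0‖ ^ 2) ∂(κ s)) atTop with hH
  have hGm : ∀ (N : ℕ) (l : ℤ), Measurable (fun s => ∫⁻ f : MW,
      ENNReal.ofReal (‖QQ 1 f N l 0‖ ^ 2) ∂(κ s)) := by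
    intro N l
    have : Measurable (fun f : MW => ENNReal.ofReal (‖QQ 1 f N l 0‖ ^ 2)) :=
      ENNReal.measurable_ofReal.comp ((meas_QQ N l).norm.pow_const 2)
    exact this.lintegral_kernel
  have hHm : ∀ l, Measurable (H l) := fun l => Measurable.liminf fun N => hGm (N + 1) l
  have hHe : ∀ l, ∀ᵐ s ∂P, H l s = ENNReal.ofReal (m s ^ 2 * (1 + ‖cf (ν s) (2 * l)‖ ^ 2)) := by
    intro l
    filter_upwards [hlim l] with s hs
    exact hs.liminf_eq
  have hHi : ∀ l, ∫⁻ s, H l s ∂P ≤ ENNReal.ofReal (if l = 0 then 2 else 1) := by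
    intro l
    refine (lintegral_liminf_le fun N => hGm (N + 1) l).trans ?_
    refine liminf_le_of_frequently_le' (Frequently.of_forall fun N => ?_)
    exact hQ (N + 1) (Nat.le_add_left 1 N) l
  -- nonnegativity of `m`
  have hm0 : ∀ᵐ s ∂P, 0 ≤ m s := hν.mono fun s hs => hs.2.2.nonneg
  have hmm : AEMeasurable (fun s => ENNReal.ofReal (m s)) P := by
    have h1 : Measurable (fun s => ∫⁻ f : MW, ENNReal.ofReal (f 0 ^ 2) ∂(κ s)) := by
      have : Measurable (fun f : MW => ENNReal.ofReal (f 0 ^ 2)) :=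
        ENNReal.measurable_ofReal.comp ((meas_eval 0).pow_const 2)
      exact this.lintegral_kernel
    exact ⟨_, h1, hm.mono fun s hs => hs.symm⟩
  -- `m = 1`
  have hone : ∀ᵐ s ∂P, m s = 1 := by
    have h0 := hHe 0
    have g1 : (fun s => 2 * ENNReal.ofReal (m s)) ≤ᵐ[P] fun s => (1 / 2) * H 0 s + 1 := by
      filter_upwards [h0, hm0, hν] with s hs hs0 hs1
      have := hs1.1
      rw [hs, mul_zero, cf_zero]
      have e1 : (2 : ℝ≥0∞) * ENNReal.ofReal (m s) = ENNReal.ofReal (2 * m s) := by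
        rw [ENNReal.ofReal_mul (by norm_num)]; simp
      have e2 : (1 / 2 : ℝ≥0∞) * ENNReal.ofReal (m s ^ 2 * (1 + ‖(1 : ℂ)‖ ^ 2)) + 1 =
          ENNReal.ofReal (m s ^ 2 + 1) := by
        have e3 : (1 / 2 : ℝ≥0∞) = ENNReal.ofReal (1 / 2) := by
          rw [ENNReal.ofReal_div_of_pos (by norm_num)]; simp
        rw [e3, ← ENNReal.ofReal_mul (by norm_num), ← ENNReal.ofReal_one,
          ← ENNReal.ofReal_add (by positivity) (by norm_num)]
        congr 1
        rw [norm_one]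
        ring
      rw [e1, e2]
      refine ENNReal.ofReal_le_ofReal ?_
      nlinarith [sq_nonneg (m s - 1)]
    have g2 : ∫⁻ s, 2 * ENNReal.ofReal (m s) ∂P = 2 := by
      rw [lintegral_const_mul' _ _ (by norm_num), hm1, mul_one]
    have g3 : ∫⁻ s, ((1 / 2) * H 0 s + 1) ∂P ≤ 2 := by
      rw [lintegral_add_right _ measurable_const, lintegral_const_mul _ (hHm 0)]
      have := hHi 0
      rw [if_pos rfl] at this
      simp only [lintegral_const, measure_univ, mul_one]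
      calc (1 / 2 : ℝ≥0∞) * ∫⁻ s, H 0 s ∂P + 1 ≤ (1 / 2) * ENNReal.ofReal 2 + 1 := by gcongr
        _ = 2 := by
          have : ENNReal.ofReal 2 = 2 := by simp
          rw [this, one_div, ENNReal.inv_mul_cancel (by norm_num) (by norm_num)]
          norm_num
    have g4 := ae_eq_of_ae_le_of_lintegral_le g1 (by rw [g2]; norm_num)
      (((hHm 0).const_mul _).add_const _).aemeasurable (by rw [g2]; exact g3)
    filter_upwards [g4, h0, hm0, hν] with s hs4 hs hs0 hs1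
    have := hs1.1
    rw [hs, mul_zero, cf_zero] at hs4
    have e1 : (2 : ℝ≥0∞) * ENNReal.ofReal (m s) = ENNReal.ofReal (2 * m s) := by
      rw [ENNReal.ofReal_mul (by norm_num)]; simp
    have e2 : (1 / 2 : ℝ≥0∞) * ENNReal.ofReal (m s ^ 2 * (1 + ‖(1 : ℂ)‖ ^ 2)) + 1 =
        ENNReal.ofReal (m s ^ 2 + 1) := by
      have e3 : (1 / 2 : ℝ≥0∞) = ENNReal.ofReal (1 / 2) := by
        rw [ENNReal.ofReal_div_of_pos (by norm_num)]; simp
      rw [e3, ← ENNReal.ofReal_mul (by norm_num), ← ENNReal.ofReal_one,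
        ← ENNReal.ofReal_add (by positivity) (by norm_num)]
      congr 1
      rw [norm_one]
      ring
    rw [e1, e2, ENNReal.ofReal_eq_ofReal_iff (by positivity) (by positivity)] at hs4
    have h5 : (m s - 1) ^ 2 = 0 := by linarith
    have h6 := pow_eq_zero_iff (two_ne_zero) |>.1 h5
    linarith
  -- the Fourier coefficients
  have hc : ∀ l : ℤ, l ≠ 0 → ∀ᵐ s ∂P, cf (ν s) (2 * l) = 0 := by
    intro l hl
    have h0 := hHe l
    have g1 : (fun _ : S => (1 : ℝ≥0∞)) ≤ᵐ[P] H l := by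
      filter_upwards [h0, hone] with s hs hs1
      rw [hs, hs1, ← ENNReal.ofReal_one]
      refine ENNReal.ofReal_le_ofReal ?_
      nlinarith [sq_nonneg ‖cf (ν s) (2 * l)‖]
    have g2 : ∫⁻ _ : S, (1 : ℝ≥0∞) ∂P = 1 := by simp
    have g3 := hHi l
    rw [if_neg hl, ENNReal.ofReal_one] at g3
    have g4 := ae_eq_of_ae_le_of_lintegral_le g1 (by rw [g2]; norm_num) (hHm l).aemeasurable
      (by rw [g2]; exact g3)
    filter_upwards [g4, h0, hone] with s hs4 hs hs1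
    rw [hs, hs1, one_pow, one_mul, ← ENNReal.ofReal_one,
      ENNReal.ofReal_eq_ofReal_iff (by norm_num) (by positivity)] at hs4
    have h5 : ‖cf (ν s) (2 * l)‖ ^ 2 = 0 := by linarith
    have h6 := pow_eq_zero_iff (two_ne_zero) |>.1 h5
    exact norm_eq_zero.1 h6
  have hc' : ∀ᵐ s ∂P, ∀ l : ℤ, l ≠ 0 → cf (ν s) (2 * l) = 0 := by
    rw [ae_all_iff]
    intro l
    by_cases hl : l = 0
    · exact Eventually.of_forall fun s h => absurd hl h
    · filter_upwards [hc l hl] with s hs _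
      exact hs
  filter_upwards [hone, hc', hν] with s h1 h2 h3
  exact ⟨h1, hJ (ν s) h3.1 h2⟩

end Pool.Agent.N661.BR
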