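import Pool.Agent.W745.RW.Stm

/-!
# Limits of the local measures of eigenfunctions: definitions (MP_6b977f_mp)

The plane is `ℂ`; `lap f` is the Laplacian, `dx f z`, `dy f z` are the partial derivatives
`fderiv ℝ f z 1`, `fderiv ℝ f z I`, and `TF Ω φ` says that `φ : ℂ → ℝ` is smooth with compact
support contained in `Ω`.
-/

set_option autoImplicit false
open MeasureTheory Filter Topology Complex ProbabilityTheory
open scoped ContDiff

namespace Pool.Agent.N661.BR

open Pool.Agent.W745.RW (lap dx dy TF Dp W)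

noncomputable section

/-- The space `MW` of all smooth real functions `f` on the plane with `Δf + f = 0`; its σ-algebra
(the standard instance) is generated by the evaluations `f ↦ f w`. -/
abbrev MW : Type := {f : ℂ → ℝ // ContDiff ℝ ∞ f ∧ ∀ z, lap f z + f z = 0}

instance : CoeFun MW fun _ => ℂ → ℝ := ⟨Subtype.val⟩

theorem fd_add (g : ℂ → ℝ) (x z v : ℂ) :
    fderiv ℝ (fun y => g (y + x)) z v = fderiv ℝ g (z + x) v := by
  rw [fderiv_comp_add_right]

theorem lap_add (f : ℂ → ℝ) (x z : ℂ) : lap (fun y => f (y + x)) z = lap f (z + x) := by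
  have hx : dx (fun y => f (y + x)) = fun z => dx f (z + x) := by
    funext z
    exact fd_add f x z 1
  have hy : dy (fun y => f (y + x)) = fun z => dy f (z + x) := by
    funext z
    exact fd_add f x z I
  unfold lap
  rw [hx, hy]
  exact congrArg₂ (· + ·) (fd_add (dx f) x z 1) (fd_add (dy f) x z I)

/-- the translate `y ↦ f (y + x)` -/
def shift (x : ℂ) (f : MW) : MW :=
  ⟨fun y => f (y + x), f.2.1.comp (contDiff_id.add contDiff_const), fun z => by
    rw [lap_add]; exact f.2.2 (z + x)⟩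

/-- `μ` is invariant under all translations -/
def IsStationary (μ : Measure MW) : Prop := ∀ x : ℂ, μ.map (shift x) = μ

/-- `μ` is ergodic for the translations -/
def IsErgodic (μ : Measure MW) : Prop :=
  ∀ A : Set MW, MeasurableSet A → (∀ x : ℂ, shift x ⁻¹' A =ᵐ[μ] A) → μ A = 0 ∨ μ A = 1

/-- the finite linear combination `∑ t j * f (w j)` of values of `f` -/
def lin {k : ℕ} (w : Fin k → ℂ) (t : Fin k → ℝ) (f : MW) : ℝ := ∑ j, t j * f (w j)

/-- a centred Gaussian law: every finite linear combination of values has a centred normal law -/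
def IsGaussianLaw (μ : Measure MW) : Prop :=
  ∀ (k : ℕ) (w : Fin k → ℂ) (t : Fin k → ℝ),
    μ.map (lin w t) = gaussianReal 0 (∫ f, lin w t f ^ 2 ∂μ).toNNReal

/-- an infinitely divisible law: for every `n ≥ 1` it is the law of the sum of `n` independent
random functions with the same law `ρ` (stated in terms of characteristic functionals) -/
def IsInfinitelyDivisible (μ : Measure MW) : Prop :=
  ∀ n : ℕ, 1 ≤ n → ∃ ρ : Measure (ℂ → ℝ), IsProbabilityMeasure ρ ∧
    ∀ (k : ℕ) (w : Fin k → ℂ) (t : Fin k → ℝ),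
      ∫ f, Complex.exp (I * (lin w t f : ℝ)) ∂μ =
        (∫ g, Complex.exp (I * ((∑ j, t j * g (w j) : ℝ) : ℂ)) ∂ρ) ^ n

/-- the Bessel function `J₀` -/
def J0 (r : ℝ) : ℝ := 1 / (2 * Real.pi) * ∫ α in (0:ℝ)..(2 * Real.pi), Real.cos (r * Real.cos α)

/-- the law `μ_RMW` of the isotropic random wave: the centred Gaussian field with covariance
`J₀ (|x - y|)` -/
def IsRandomWave (μ : Measure MW) : Prop :=
  ∀ (k : ℕ) (w : Fin k → ℂ) (t : Fin k → ℝ),
    μ.map (lin w t) = gaussianReal 0 (∑ i, ∑ j, t i * t j * J0 ‖w i - w j‖).toNNReal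

/-- the covariance function of a wave with directions of law `ν`:
`cov ν w = ∫ cos (w · (cos α, sin α)) dν(α)` -/
def cov (ν : Measure ℝ) (w : ℂ) : ℝ :=
  ∫ α, Real.cos (w.re * Real.cos α + w.im * Real.sin α) ∂ν

/-- the probability that two independent directions of law `ν` are parallel (equal or opposite);
it is `0` if and only if `ν` has no atoms modulo `π` -/
def parallel (ν : Measure ℝ) : ℝ := (ν.prod ν).real {p | Real.sin (p.1 - p.2) = 0}

/-- the four point function at the points `w i` of the Gaussian wave with directions of law `ν` -/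
def gauss (ν : Measure ℝ) (w : Fin 4 → ℂ) : ℝ :=
  cov ν (w 0 - w 1) * cov ν (w 2 - w 3) + cov ν (w 0 - w 2) * cov ν (w 1 - w 3) +
    cov ν (w 0 - w 3) * cov ν (w 1 - w 2)

/-- the function `ũ_z (w) = u (z + λ^{-1/2} w) χ (|w| / (λ^{1/2} dist (z, ∂Ω)))` -/
def resc (χ : ℝ → ℝ) (Ω : Set ℂ) (lam : ℝ) (u : ℂ → ℝ) (z w : ℂ) : ℝ :=
  u (z + w / (√lam : ℝ)) * χ (‖w‖ / (√lam * Metric.infDist z (frontier Ω)))

/-- `χ : [0, ∞) → [0, 1]` is smooth and decreasing, `1` near `0`, and `0` outside `[0, 1]` -/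
structure IsCutoff (χ : ℝ → ℝ) : Prop where
  smooth : ContDiffOn ℝ ∞ χ (Set.Ici 0)
  anti : AntitoneOn χ (Set.Ici 0)
  mem : ∀ t : ℝ, 0 ≤ t → χ t ∈ Set.Icc (0 : ℝ) 1
  one : ∃ δ : ℝ, 0 < δ ∧ ∀ t : ℝ, 0 ≤ t → t ≤ δ → χ t = 1
  zero : ∀ t : ℝ, 1 ≤ t → χ t = 0

/-- `μ` is the limit along a subsequence of the local measures
`m_n = |Ω|⁻¹ ∫_Ω δ_{ũ_z} dz`, in the sense of convergence of all finite dimensional distributions
(stated in terms of characteristic functions) -/
def IsLocalLimit (χ : ℝ → ℝ) (Ω : Set ℂ) (lam : ℕ → ℝ) (u : ℕ → ℂ → ℝ) (μ : Measure MW) : Prop :=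
  ∃ σ : ℕ → ℕ, StrictMono σ ∧ ∀ (k : ℕ) (w : Fin k → ℂ) (t : Fin k → ℝ),
    Tendsto (fun n => (1 / volume.real Ω : ℝ) * ∫ z in Ω,
      Complex.exp (I * ((∑ j, t j * resc χ Ω (lam (σ n)) (u (σ n)) z (w j) : ℝ) : ℂ))) atTop
      (𝓝 (∫ f, Complex.exp (I * (lin w t f : ℝ)) ∂μ))

/-- `u n` is quantum ergodic in the unit cotangent bundle over `Ω`: for all test functions `φ` and
all `k`, `∫ φ u (λ^{-1/2}(∂x - i∂y))^k u → δ_{k0} ∫ φ` -/
def IsQuantumErgodic (Ω : Set ℂ) (lam : ℕ → ℝ) (u : ℕ → ℂ → ℝ) : Prop :=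
  ∀ φ, TF Ω φ → ∀ k : ℕ, Tendsto (fun n => ∫ z, (φ z : ℂ) *
    ((u n z : ℂ) * (Dp (1 / √(lam n)))^[k] (fun w => (u n w : ℂ)) z)) atTop
    (𝓝 (if k = 0 then ((∫ z, φ z : ℝ) : ℂ) else 0))

end

end Pool.Agent.N661.BR
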