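import Pool.Agent.N661.BR.Stm2

/-!
# Project BR/BH, third part: ergodic limits
-/

set_option autoImplicit false
open MeasureTheory Filter Topology Complex ProbabilityTheory
open scoped ContDiff

namespace Pool.Agent.N661.BR

open Pool.Agent.W745.RW (lap dx dy TF Dp W Sys)
open Pool.Agent.Y265.RW (sy rr)

noncomputable section

/-- the second moment of a finite linear combination for the isotropic wave -/
def SM {k : ℕ} (c : Fin k → ℂ) (a : Fin k → ℤ) (w : Fin k → ℂ) : ℝ :=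
  1 / (2 * Real.pi) * ∫ α in (0:ℝ)..(2 * Real.pi),
    ‖∑ i, c i * (sy α ^ (a i) * Complex.exp ((rr (w i) α : ℂ) * I))‖ ^ 2

/-- BR/MASSG: second moments of the local limit -/
def S_MASSG : Prop := ∀ (Ω : Set ℂ), IsOpen Ω → Bornology.IsBounded Ω → Ω.Nonempty →
  ∀ (h : ℕ → ℝ) (u : ℕ → ℂ → ℝ), Sys Ω h u → ∀ μ : Measure MW, IsProbabilityMeasure μ →
  (∀ (k : ℕ) (c : Fin k → ℂ) (a : Fin k → ℤ) (w : Fin k → ℂ),
    Apx Ω (volume.real Ω) h u μ c a w) →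
  ∀ (k : ℕ) (c : Fin k → ℂ) (a : Fin k → ℤ) (w : Fin k → ℂ),
    ∫⁻ f : MW, ENNReal.ofReal (‖∑ i, c i * W 1 f (a i) (w i)‖ ^ 2) ∂μ ≤
      ENNReal.ofReal (SM c a w)

/-- BH/MASSGH: the same in the abstract setting -/
def S_MASSGH : Prop := ∀ (Z : Type) (_ : MeasurableSpace Z) (P : Measure Z)
  (X : ℕ → ℤ → ℂ → Z → ℂ) (φ : ℕ → Z → ℝ) (μ : Measure MW), Pool.Agent.N661.BH.Dat P X φ μ →
  ∀ (k : ℕ) (c : Fin k → ℂ) (a : Fin k → ℤ) (w : Fin k → ℂ),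
    ∫⁻ f : MW, ENNReal.ofReal (‖∑ i, c i * W 1 f (a i) (w i)‖ ^ 2) ∂μ ≤
      ENNReal.ofReal (SM c a w)

/-- the uniform probability measure of directions -/
def unif : Measure ℝ := ENNReal.ofReal (1 / (2 * Real.pi)) •
  volume.restrict (Set.Ioc 0 (2 * Real.pi))

/-- BR/UNIF -/
def S_UNIF : Prop := IsProbabilityMeasure unif ∧ parallel unif = 0 ∧
  (∀ w : ℂ, cov unif w = J0 ‖w‖) ∧
  ∀ (c₁ c₂ : ℝ) (w₁ w₂ : ℂ), SM ![(c₁ : ℂ), (c₂ : ℂ)] ![0, 0] ![w₁, w₂] =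
    c₁ ^ 2 + c₂ ^ 2 + 2 * c₁ * c₂ * J0 ‖w₁ - w₂‖

/-- BR/ERG4: the fourth moment of an ergodic wave (plane waves allowed) -/
def S_ERG4 : Prop := ∀ (μ : Measure MW), IsProbabilityMeasure μ → IsStationary μ → IsErgodic μ →
  Integrable (fun f : MW => f 0 ^ 4) μ → ∀ (m : ℝ) (ν : Measure ℝ), IsProbabilityMeasure ν →
  (∀ w w' : ℂ, ∫ f : MW, f w * f w' ∂μ = m * cov ν (w - w')) →
  ∫ f : MW, f 0 ^ 4 ∂μ = m ^ 2 * (3 - 3 / 2 * parallel ν)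

end

end Pool.Agent.N661.BR
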