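import Pool.Agent.N661.BR.Pair
import Pool.Agent.N661.BR.Stm3

/-!
# Project BR, third theorem: ergodic limits
-/

set_option autoImplicit false
open MeasureTheory Filter Topology Complex ProbabilityTheory
open scoped ContDiff ENNReal

namespace Pool.Agent.N661.BR

open Pool.Agent.W745.RW (lap dx dy TF Dp Dm W Sol Sys)

/-- an inequality for the square of a linear combination of two values -/
theorem two_le {μ : Measure MW} (hG : ∀ (k : ℕ) (c : Fin k → ℂ) (a : Fin k → ℤ) (w : Fin k → ℂ),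
      ∫⁻ f : MW, ENNReal.ofReal (‖∑ i, c i * W 1 f (a i) (w i)‖ ^ 2) ∂μ ≤
        ENNReal.ofReal (SM c a w))
    (hU : S_UNIF) (hi : ∀ w : ℂ, Integrable (fun f : MW => f w ^ 2) μ)
    (hii : ∀ w w' : ℂ, Integrable (fun f : MW => f w * f w') μ)
    (h1 : ∀ w : ℂ, ∫ f : MW, f w ^ 2 ∂μ = 1) (c₁ c₂ : ℝ) (w₁ w₂ : ℂ) :
    c₁ ^ 2 + c₂ ^ 2 + 2 * c₁ * c₂ * ∫ f : MW, f w₁ * f w₂ ∂μ ≤
      c₁ ^ 2 + c₂ ^ 2 + 2 * c₁ * c₂ * J0 ‖w₁ - w₂‖ := by
  have h2 := hG 2 ![(c₁ : ℂ), (c₂ : ℂ)] ![0, 0] ![w₁, w₂]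
  rw [hU.2.2.2] at h2
  have e1 : ∀ f : MW, ‖∑ i : Fin 2, (![(c₁ : ℂ), (c₂ : ℂ)] i) * W 1 f ((![0, 0] : Fin 2 → ℤ) i)
      ((![w₁, w₂] : Fin 2 → ℂ) i)‖ ^ 2 =
      c₁ ^ 2 * f w₁ ^ 2 + c₂ ^ 2 * f w₂ ^ 2 + 2 * c₁ * c₂ * (f w₁ * f w₂) := by
    intro f
    rw [Fin.sum_univ_two]
    simp only [Matrix.cons_val_zero, Matrix.cons_val_one, W_zero]
    rw [← Complex.ofReal_mul, ← Complex.ofReal_mul, ← Complex.ofReal_add, Complex.norm_real,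
      Real.norm_eq_abs, sq_abs]
    ring
  simp only [e1] at h2
  have i1 : Integrable (fun f : MW => c₁ ^ 2 * f w₁ ^ 2 + c₂ ^ 2 * f w₂ ^ 2 +
      2 * c₁ * c₂ * (f w₁ * f w₂)) μ :=
    (((hi w₁).const_mul _).add ((hi w₂).const_mul _)).add ((hii w₁ w₂).const_mul _)
  have i2 : ∫ f : MW, (c₁ ^ 2 * f w₁ ^ 2 + c₂ ^ 2 * f w₂ ^ 2 + 2 * c₁ * c₂ * (f w₁ * f w₂)) ∂μ =
      c₁ ^ 2 + c₂ ^ 2 + 2 * c₁ * c₂ * ∫ f : MW, f w₁ * f w₂ ∂μ := by
    have a1 : Integrable (fun f : MW => c₁ ^ 2 * f w₁ ^ 2) μ := (hi w₁).const_mul _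
    have a2 : Integrable (fun f : MW => c₂ ^ 2 * f w₂ ^ 2) μ := (hi w₂).const_mul _
    have a3 : Integrable (fun f : MW => 2 * c₁ * c₂ * (f w₁ * f w₂)) μ := (hii w₁ w₂).const_mul _
    have a12 : Integrable (fun f : MW => c₁ ^ 2 * f w₁ ^ 2 + c₂ ^ 2 * f w₂ ^ 2) μ := a1.add a2
    rw [integral_add a12 a3, integral_add a1 a2, integral_const_mul, integral_const_mul,
      integral_const_mul, h1, h1, mul_one, mul_one]
  have hnn : ∀ f : MW, 0 ≤ c₁ ^ 2 * f w₁ ^ 2 + c₂ ^ 2 * f w₂ ^ 2 + 2 * c₁ * c₂ * (f w₁ * f w₂) := by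
    intro f
    nlinarith [sq_nonneg (c₁ * f w₁ + c₂ * f w₂)]
  rw [← ofReal_integral_eq_lintegral_ofReal i1 (Eventually.of_forall hnn), i2] at h2
  have h3 : 0 ≤ c₁ ^ 2 + c₂ ^ 2 + 2 * c₁ * c₂ * J0 ‖w₁ - w₂‖ := by
    rw [← hU.2.2.2]
    unfold SM
    have : 0 ≤ ∫ α in (0:ℝ)..(2 * Real.pi), ‖∑ i : Fin 2, (![(c₁ : ℂ), (c₂ : ℂ)] i) *
        (Pool.Agent.Y265.RW.sy α ^ ((![0, 0] : Fin 2 → ℤ) i) *
          Complex.exp ((Pool.Agent.Y265.RW.rr ((![w₁, w₂] : Fin 2 → ℂ) i) α : ℂ) * I))‖ ^ 2 :=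
      intervalIntegral.integral_nonneg (by positivity) fun x _ => by positivity
    positivity
  exact (ENNReal.ofReal_le_ofReal_iff h3).1 h2

/-- **Ergodic limits** -/
theorem ergodic_limit (A : Parts) (hU : S_UNIF) {μ : Measure MW} [IsProbabilityMeasure μ]
    (hQ : ∀ v : ℤ →₀ ℝ, Bal v → ∀ l : ℤ,
      ∫⁻ f : MW, ENNReal.ofReal (‖QV v l 1 f 0‖ ^ 2) ∂μ ≤ ENNReal.ofReal (KV v l))
    (hG : ∀ (k : ℕ) (c : Fin k → ℂ) (a : Fin k → ℤ) (w : Fin k → ℂ),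
      ∫⁻ f : MW, ENNReal.ofReal (‖∑ i, c i * W 1 f (a i) (w i)‖ ^ 2) ∂μ ≤
        ENNReal.ofReal (SM c a w))
    (hvar : ∫ f : MW, f 0 ^ 2 ∂μ = 1) (hs : IsStationary μ) (he : IsErgodic μ) :
    Good μ ∧ (IsInfinitelyDivisible μ → IsRandomWave μ) := by
  have hi0 : Integrable (fun f : MW => f 0 ^ 2) μ := by
    by_contra h
    rw [integral_undef h] at hvar
    norm_num at hvar
  have hi := sq_int hs hi0
  have h1 : ∀ w : ℂ, ∫ f : MW, f w ^ 2 ∂μ = 1 := by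
    intro w
    rw [← hvar]
    have e : ∫ f : MW, f 0 ^ 2 ∂(μ.map (shift w)) = ∫ f : MW, f w ^ 2 ∂μ := by
      rw [integral_map (meas_shift w).aemeasurable ((meas_eval 0).pow_const 2).aestronglyMeasurable]
      refine integral_congr_ae (Eventually.of_forall fun f => ?_)
      show (f (0 + w)) ^ 2 = f w ^ 2
      rw [zero_add]
    rw [← e, hs w]
  have hii : ∀ w w' : ℂ, Integrable (fun f : MW => f w * f w') μ := by
    intro w w'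
    refine Integrable.mono' ((hi w).add (hi w'))
      ((meas_eval w).mul (meas_eval w')).aestronglyMeasurable (Eventually.of_forall fun f => ?_)
    rw [Pi.add_apply, Real.norm_eq_abs, abs_le]
    constructor <;> nlinarith [sq_nonneg (f w + f w'), sq_nonneg (f w - f w'), sq_nonneg (f w),
      sq_nonneg (f w')]
  have h2 : ∀ w w' : ℂ, ∫ f : MW, f w * f w' ∂μ = J0 ‖w - w'‖ := by
    intro w w'
    have k1 := two_le hG hU hi hii h1 1 1 w w'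
    have k2 := two_le hG hU hi hii h1 1 (-1) w w'
    linarith
  have h3 : ∀ w w' : ℂ, ∫ f : MW, f w * f w' ∂μ = 1 * cov unif (w - w') := by
    intro w w'
    rw [h2, hU.2.2.1, one_mul]
  have hP := hU.1
  -- the averages
  have hκ : (Measure.dirac ()).bind (Kernel.const Unit μ) = μ := by
    rw [Measure.dirac_bind (Kernel.const Unit μ).measurable, Kernel.const_apply]
  have hA : ∀ p : ℤ, p = 0 ∨ p = 1 → (∑' k : ℕ, (2 : ENNReal) ^ k *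
      (∫⁻ f : MW, ENNReal.ofReal ((AV p (4 ^ (k + 1)) f 0 - AV p (4 ^ k) f 0) ^ 2) ∂μ)) ≠ ⊤ := by
    intro p _
    have := mix_AV A hκ hQ p
    rw [ae_dirac_eq] at this
    have h := Filter.eventually_pure.1 this
    simpa only [Kernel.const_apply] using h
  obtain ⟨h4, h5, h6⟩ := erg_four A hs he hi0 hP hU.2.1 h3 hA
  refine ⟨good_of h5 rfl hU.2.2.1, fun hd => ?_⟩
  intro k w t
  rw [id_wave A.id h5 h6 hd w t, one_mul]
  simp only [hU.2.2.1]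

end Pool.Agent.N661.BR
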