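import Pool.Agent.N661.BR.All
import Pool.Agent.N273.BRERG

/-!
# Project BR: the parts are complete
-/

set_option autoImplicit false

namespace Pool.Agent.N661.BR

theorem allParts : Parts := parts Pool.Agent.N273.BRERG.ERG

end Pool.Agent.N661.BR
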