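import Pool.Agent.N661.BR.Erg

/-!
# Project BR: the law of the derivatives at a local limit
-/

set_option autoImplicit false
open MeasureTheory Filter Topology Complex ProbabilityTheory
open scoped ContDiff ENNReal

namespace Pool.Agent.N661.BR

open Pool.Agent.W745.RW (lap dx dy TF Dp Dm W Sol Sys)

variable {Ω : Set ℂ} {lam : ℕ → ℝ} {u : ℕ → ℂ → ℝ} {χ : ℝ → ℝ} {μ : Measure MW}

/-- the law of all derivatives -/
theorem limit_apx (A : Parts) (hΩ : IsOpen Ω) (hb : Bornology.IsBounded Ω) (hne : Ω.Nonempty)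
    (hpos : ∀ n, 0 < lam n) (hlam : Tendsto lam atTop atTop) (hu : ∀ n, ContDiffOn ℝ ∞ (u n) Ω)
    (heq : ∀ n, ∀ z ∈ Ω, lap (u n) z + lam n * u n z = 0) (hqe : IsQuantumErgodic Ω lam u)
    (hχ : IsCutoff χ) (hμp : IsProbabilityMeasure μ) (hμ : IsLocalLimit χ Ω lam u μ) :
    ∃ (h : ℕ → ℝ) (u' : ℕ → ℂ → ℝ), Sys Ω h u' ∧
      ∀ (k : ℕ) (c : Fin k → ℂ) (a : Fin k → ℤ) (w : Fin k → ℂ),
        Apx Ω (volume.real Ω) h u' μ c a w := by
  obtain ⟨σ, hσ, hlim⟩ := hμ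
  have hσt := hσ.tendsto_atTop
  have hS : Sys Ω (fun n => 1 / √(lam (σ n))) (fun n => u (σ n)) :=
    Pool.Agent.Y265.RW.raw_sys Ω (fun n => lam (σ n)) (fun n => u (σ n)) (fun n => hpos _)
      (hlam.comp hσt) (fun n => hu _) (fun n => heq _) (fun φ hφ k => (hqe φ hφ k).comp hσt)
  have hV : 0 < volume.real Ω := by
    have h1 : volume Ω ≠ ⊤ := hb.measure_lt_top.ne
    exact ENNReal.toReal_pos (hΩ.measure_pos volume hne).ne' h1
  have h0 : ∀ (k : ℕ) (c w : Fin k → ℂ), Apx Ω (volume.real Ω) (fun n => 1 / √(lam (σ n)))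
      (fun n => u (σ n)) μ c (fun _ => 0) w := by
    intro k c w φ hφ hφ1 η hη
    have h1 := A.base Ω hΩ hb hne χ hχ (fun n => lam (σ n)) (fun n => hpos _) (hlam.comp hσt)
      (fun n => u (σ n)) (fun n => hu _) k w (fun j => (c j).re)
      (∫ f, Complex.exp (I * (lin w (fun j => (c j).re) f : ℝ)) ∂μ)
      (hlim k w fun j => (c j).re) φ hφ hφ1 η hη
    refine h1.mono fun n hn => ?_
    have e1 : ∀ z, (∑ j, c j * W (1 / √(lam (σ n))) (u (σ n)) 0
        (z + ((1 / √(lam (σ n)) : ℝ) : ℂ) * w j)).re =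
        ∑ j, (c j).re * u (σ n) (z + ((1 / √(lam (σ n)) : ℝ) : ℂ) * w j) := by
      intro z
      rw [Complex.re_sum]
      refine Finset.sum_congr rfl fun j _ => ?_
      rw [W_zero, Complex.re_mul_ofReal]
    have e2 : ∀ f : MW, (∑ j, c j * W 1 f 0 (w j)).re = lin w (fun j => (c j).re) f := by
      intro f
      rw [Complex.re_sum]
      refine Finset.sum_congr rfl fun j _ => ?_
      rw [W_zero, Complex.re_mul_ofReal]
    simp only [e1, e2]
    exact hn
  have h2 := A.law A.iso Ω hΩ _ _ hS (volume.real Ω) hV μ hμp h0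
  exact ⟨_, _, hS, fun k c a w => h2 k c a w⟩

end Pool.Agent.N661.BR
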