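import Pool.Agent.N661.BR.Fin
import Pool.Agent.N661.BR.Lim2
import Pool.Agent.N953.BRMASSG
import Pool.Agent.N953.BRMASS
import Pool.Agent.N232.BRPAIR
import Pool.Agent.N130.BRKVC
import Pool.Agent.N344.BRNUL

/-!
# Project BR, second and third theorem
-/

set_option autoImplicit false
open MeasureTheory Filter Topology Complex ProbabilityTheory
open scoped ContDiff ENNReal

namespace Pool.Agent.N661.BR

open Pool.Agent.W745.RW (lap dx dy TF Dp Dm W Sol Sys)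

/-- the pair inequality for a law which satisfies the two inequalities -/
theorem pairs' {μ : Measure MW}
    (hQ : ∀ v : ℤ →₀ ℝ, Bal v → ∀ l : ℤ,
      ∫⁻ f : MW, ENNReal.ofReal (‖QV v l 1 f 0‖ ^ 2) ∂μ ≤ ENNReal.ofReal (KV v l))
    (hmass : ∫⁻ f : MW, ENNReal.ofReal (f 0 ^ 2) ∂μ ≤ 1)
    {S : Type*} [MeasurableSpace S] {P : Measure S} [IsProbabilityMeasure P]
    {κ : Kernel S MW} [IsMarkovKernel κ] (hκ : P.bind κ = μ) (m : S → ℝ)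
    (ν : Kernel S ℝ) [IsMarkovKernel ν] (herg : ∀ᵐ s ∂P, IsStationary (κ s) ∧ IsErgodic (κ s))
    (hν : ∀ᵐ s ∂P, ∀ w w' : ℂ, ∫ f : MW, f w * f w' ∂(κ s) = m s * cov (ν s) (w - w'))
    (B : Set ℝ) (hB : MeasurableSet B) (hB' : B ⊆ Set.Ioo 0 Real.pi) :
    ∫⁻ s, ENNReal.ofReal (m s ^ 2) *
        ((ν s).prod (ν s)) {p | ∃ k : ℤ, p.1 - p.2 + k * Real.pi ∈ B} ∂P ≤
      ENNReal.ofReal (1 / Real.pi) * volume B :=
  pairs allParts Pool.Agent.N344.BRNUL.NUL Pool.Agent.N130.BRKVC.KVC Pool.Agent.N232.BRPAIR.PAIR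
    hQ hmass hκ m ν herg hν B hB hB'

section

variable {Ω : Set ℂ} {lam : ℕ → ℝ} {u : ℕ → ℂ → ℝ} {χ : ℝ → ℝ} {μ : Measure MW}

/-- everything about a local limit -/
theorem limit_all (hΩ : IsOpen Ω) (hb : Bornology.IsBounded Ω) (hne : Ω.Nonempty)
    (hpos : ∀ n, 0 < lam n) (hlam : Tendsto lam atTop atTop) (hu : ∀ n, ContDiffOn ℝ ∞ (u n) Ω)
    (heq : ∀ n, ∀ z ∈ Ω, lap (u n) z + lam n * u n z = 0) (hqe : IsQuantumErgodic Ω lam u)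
    (hχ : IsCutoff χ) (hμp : IsProbabilityMeasure μ) (hμ : IsLocalLimit χ Ω lam u μ) :
    (∀ v : ℤ →₀ ℝ, Bal v → ∀ l : ℤ,
      ∫⁻ f : MW, ENNReal.ofReal (‖QV v l 1 f 0‖ ^ 2) ∂μ ≤ ENNReal.ofReal (KV v l)) ∧
    (∫⁻ f : MW, ENNReal.ofReal (f 0 ^ 2) ∂μ ≤ 1) ∧
    ∀ (k : ℕ) (c : Fin k → ℂ) (a : Fin k → ℤ) (w : Fin k → ℂ),
      ∫⁻ f : MW, ENNReal.ofReal (‖∑ i, c i * W 1 f (a i) (w i)‖ ^ 2) ∂μ ≤
        ENNReal.ofReal (SM c a w) := by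
  obtain ⟨h, u', hS, hA⟩ := limit_apx allParts hΩ hb hne hpos hlam hu heq hqe hχ hμp hμ
  exact ⟨fun v hv l => limit_QV allParts hΩ hb hne hpos hlam hu heq hqe hχ hμp hμ v hv l,
    Pool.Agent.N953.BRMASS.MASS Ω hΩ hb hne h u' hS μ hμp hA,
    Pool.Agent.N953.BRMASSG.MASSG Ω hΩ hb hne h u' hS μ hμp hA⟩

end

end Pool.Agent.N661.BR
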