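import Pool.Agent.N661.BR.Base

/-!
# Project BR: linear combinations of values
-/

set_option autoImplicit false
open MeasureTheory Filter Topology Complex ProbabilityTheory
open scoped ContDiff ENNReal

namespace Pool.Agent.N661.BR

section

variable {ρ : Measure MW} [IsProbabilityMeasure ρ] {m : ℝ} {ν : Measure ℝ}

theorem meas_lin {k : ℕ} (w : Fin k → ℂ) (t : Fin k → ℝ) : Measurable (lin w t) := by
  unfold lin
  exact Finset.measurable_sum _ fun j _ => (meas_eval (w j)).const_mul _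

theorem am4 (a b c d : ℝ) : |a * b * c * d| ≤ a ^ 4 + b ^ 4 + c ^ 4 + d ^ 4 := by
  rw [abs_le]
  constructor <;>
    nlinarith [sq_nonneg (a * b + c * d), sq_nonneg (a * b - c * d), sq_nonneg (a ^ 2 - b ^ 2),
      sq_nonneg (c ^ 2 - d ^ 2), sq_nonneg (a ^ 2), sq_nonneg (b ^ 2), sq_nonneg (c ^ 2),
      sq_nonneg (d ^ 2)]

omit [IsProbabilityMeasure ρ] in
theorem Four.i4 (H : Four ρ m ν) (w : ℂ) : Integrable (fun f : MW => f w ^ 4) ρ := by
  have h := (H.memLp w).integrable_norm_pow (by norm_num)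
  refine h.congr (Eventually.of_forall fun f => ?_)
  show ‖f w‖ ^ 4 = f w ^ 4
  rw [Real.norm_eq_abs]
  exact Even.pow_abs (by decide) _

omit [IsProbabilityMeasure ρ] in
theorem Four.int4 (H : Four ρ m ν) (a b c d : ℂ) :
    Integrable (fun f : MW => f a * f b * f c * f d) ρ := by
  refine Integrable.mono' ((((H.i4 a).add (H.i4 b)).add (H.i4 c)).add (H.i4 d))
    ((((meas_eval a).mul (meas_eval b)).mul (meas_eval c)).mul
      (meas_eval d)).aestronglyMeasurable (Eventually.of_forall fun f => ?_)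
  exact am4 _ _ _ _

theorem Four.i2 (H : Four ρ m ν) (a : ℂ) : Integrable (fun f : MW => f a ^ 2) ρ := by
  refine Integrable.mono' ((H.i4 a).add (integrable_const 1))
    ((meas_eval a).pow_const 2).aestronglyMeasurable (Eventually.of_forall fun f => ?_)
  rw [Real.norm_of_nonneg (by positivity)]
  show f a ^ 2 ≤ f a ^ 4 + 1
  nlinarith [sq_nonneg (f a ^ 2 - 1), sq_nonneg (f a)]

theorem Four.int2 (H : Four ρ m ν) (a b : ℂ) :
    Integrable (fun f : MW => f a * f b) ρ := by
  refine Integrable.mono' ((H.i2 a).add (H.i2 b))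
    ((meas_eval a).mul (meas_eval b)).aestronglyMeasurable (Eventually.of_forall fun f => ?_)
  show ‖f a * f b‖ ≤ f a ^ 2 + f b ^ 2
  rw [Real.norm_eq_abs, abs_le]
  constructor <;> nlinarith [sq_nonneg (f a + f b), sq_nonneg (f a - f b)]

theorem Four.int1 (H : Four ρ m ν) (a : ℂ) : Integrable (fun f : MW => f a) ρ := by
  refine Integrable.mono' ((H.i2 a).add (integrable_const 1))
    (meas_eval a).aestronglyMeasurable (Eventually.of_forall fun f => ?_)
  show ‖f a‖ ≤ f a ^ 2 + 1
  rw [Real.norm_eq_abs, abs_le]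
  constructor <;> nlinarith [sq_nonneg (f a + 1), sq_nonneg (f a - 1)]

theorem lin_pow2 {k : ℕ} (w : Fin k → ℂ) (t : Fin k → ℝ) (f : MW) :
    lin w t f ^ 2 = ∑ i, ∑ j, t i * t j * (f (w i) * f (w j)) := by
  unfold lin
  rw [pow_two, Finset.sum_mul_sum]
  exact Finset.sum_congr rfl fun i _ => Finset.sum_congr rfl fun j _ => by ring

theorem lin_pow4 {k : ℕ} (w : Fin k → ℂ) (t : Fin k → ℝ) (f : MW) :
    lin w t f ^ 4 = ∑ a, ∑ b, ∑ c, ∑ d, t a * t b * t c * t d *
      (f (w a) * f (w b) * f (w c) * f (w d)) := by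
  rw [show lin w t f ^ 4 = lin w t f ^ 2 * lin w t f ^ 2 by ring, lin_pow2, Finset.sum_mul]
  refine Finset.sum_congr rfl fun a _ => ?_
  rw [Finset.sum_mul]
  refine Finset.sum_congr rfl fun b _ => ?_
  rw [Finset.mul_sum]
  refine Finset.sum_congr rfl fun c _ => ?_
  rw [Finset.mul_sum]
  exact Finset.sum_congr rfl fun d _ => by ring

theorem Four.lin2 (H : Four ρ m ν) {k : ℕ} (w : Fin k → ℂ) (t : Fin k → ℝ) :
    ∫ f, lin w t f ^ 2 ∂ρ = m * ∑ i, ∑ j, t i * t j * cov ν (w i - w j) := by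
  simp only [lin_pow2]
  rw [integral_finsetSum _ fun i _ => integrable_finsetSum _ fun j _ =>
    (H.int2 (w i) (w j)).const_mul _, Finset.mul_sum]
  refine Finset.sum_congr rfl fun i _ => ?_
  rw [integral_finsetSum _ fun j _ => (H.int2 (w i) (w j)).const_mul _, Finset.mul_sum]
  refine Finset.sum_congr rfl fun j _ => ?_
  rw [integral_const_mul, H.two]
  ring

omit [IsProbabilityMeasure ρ] in
theorem Four.four' (H : Four ρ m ν) (a b c d : ℂ) :
    ∫ f : MW, f a * f b * f c * f d ∂ρ = m ^ 2 * (cov ν (a - b) * cov ν (c - d) +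
      cov ν (a - c) * cov ν (b - d) + cov ν (a - d) * cov ν (b - c)) := by
  have := H.four ![a, b, c, d]
  simp only [Fin.prod_univ_four, gauss] at this
  exact this

omit [IsProbabilityMeasure ρ] in
theorem Four.lin4 (H : Four ρ m ν) {k : ℕ} (w : Fin k → ℂ) (t : Fin k → ℝ) :
    ∫ f, lin w t f ^ 4 ∂ρ = 3 * (m * ∑ i, ∑ j, t i * t j * cov ν (w i - w j)) ^ 2 := by
  simp only [lin_pow4]
  have e : ∫ f : MW, (∑ a, ∑ b, ∑ c, ∑ d, t a * t b * t c * t d *
      (f (w a) * f (w b) * f (w c) * f (w d))) ∂ρ = ∑ a, ∑ b, ∑ c, ∑ d, t a * t b * t c * t d *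
      (m ^ 2 * (cov ν (w a - w b) * cov ν (w c - w d) + cov ν (w a - w c) * cov ν (w b - w d) +
        cov ν (w a - w d) * cov ν (w b - w c))) := by
    rw [integral_finsetSum _ fun a _ => integrable_finsetSum _ fun b _ =>
      integrable_finsetSum _ fun c _ => integrable_finsetSum _ fun d _ =>
      (H.int4 _ _ _ _).const_mul _]
    refine Finset.sum_congr rfl fun a _ => ?_
    rw [integral_finsetSum _ fun b _ =>
      integrable_finsetSum _ fun c _ => integrable_finsetSum _ fun d _ =>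
      (H.int4 _ _ _ _).const_mul _]
    refine Finset.sum_congr rfl fun b _ => ?_
    rw [integral_finsetSum _ fun c _ => integrable_finsetSum _ fun d _ =>
      (H.int4 _ _ _ _).const_mul _]
    refine Finset.sum_congr rfl fun c _ => ?_
    rw [integral_finsetSum _ fun d _ => (H.int4 _ _ _ _).const_mul _]
    refine Finset.sum_congr rfl fun d _ => ?_
    rw [integral_const_mul, H.four']
  rw [e]
  set X : Fin k → Fin k → ℝ := fun i j => t i * t j * cov ν (w i - w j) with hX
  have s1 : ∑ a, ∑ b, ∑ c, ∑ d, X a b * X c d = (∑ i, ∑ j, X i j) ^ 2 := by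
    rw [pow_two, Finset.sum_mul]
    refine Finset.sum_congr rfl fun a _ => ?_
    rw [Finset.sum_mul]
    refine Finset.sum_congr rfl fun b _ => ?_
    rw [Finset.mul_sum]
    refine Finset.sum_congr rfl fun c _ => ?_
    rw [Finset.mul_sum]
  have s2 : ∑ a, ∑ b, ∑ c, ∑ d, X a c * X b d = (∑ i, ∑ j, X i j) ^ 2 := by
    rw [← s1]
    refine Finset.sum_congr rfl fun a _ => ?_
    rw [Finset.sum_comm]
  have s3 : ∑ a, ∑ b, ∑ c, ∑ d, X a d * X b c = (∑ i, ∑ j, X i j) ^ 2 := by
    rw [← s1]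
    refine Finset.sum_congr rfl fun a _ => ?_
    calc ∑ b, ∑ c, ∑ d, X a d * X b c = ∑ b, ∑ d, ∑ c, X a d * X b c :=
          Finset.sum_congr rfl fun b _ => Finset.sum_comm
      _ = ∑ d, ∑ b, ∑ c, X a d * X b c := Finset.sum_comm
  have s4 : ∑ a, ∑ b, ∑ c, ∑ d, t a * t b * t c * t d *
      (m ^ 2 * (cov ν (w a - w b) * cov ν (w c - w d) + cov ν (w a - w c) * cov ν (w b - w d) +
        cov ν (w a - w d) * cov ν (w b - w c))) = m ^ 2 * (∑ a, ∑ b, ∑ c, ∑ d, X a b * X c d +
        ∑ a, ∑ b, ∑ c, ∑ d, X a c * X b d + ∑ a, ∑ b, ∑ c, ∑ d, X a d * X b c) := by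
    simp only [← Finset.sum_add_distrib, Finset.mul_sum]
    refine Finset.sum_congr rfl fun a _ => Finset.sum_congr rfl fun b _ =>
      Finset.sum_congr rfl fun c _ => Finset.sum_congr rfl fun d _ => ?_
    simp only [hX]
    ring
  rw [s4, s1, s2, s3]
  ring

omit [IsProbabilityMeasure ρ] in
theorem Four.memLin (H : Four ρ m ν) {k : ℕ} (w : Fin k → ℂ) (t : Fin k → ℝ) :
    MemLp (lin w t) 4 ρ := by
  unfold lin
  exact memLp_finsetSum _ fun j _ => (H.memLp (w j)).const_mul _

/-- infinitely divisible components -/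
theorem id_wave (hID : S_ID) (H : Four ρ m ν) (h1 : ∀ w : ℂ, ∫ f : MW, f w ∂ρ = 0)
    (hd : IsInfinitelyDivisible ρ) {k : ℕ} (w : Fin k → ℂ) (t : Fin k → ℝ) :
    ρ.map (lin w t) = gaussianReal 0 (m * ∑ i, ∑ j, t i * t j * cov ν (w i - w j)).toNNReal := by
  have hl := meas_lin w t
  have hp : IsProbabilityMeasure (ρ.map (lin w t)) :=
    Measure.isProbabilityMeasure_map hl.aemeasurable
  refine hID (ρ.map (lin w t)) hp _ ?_ ?_ ?_ ?_ ?_
  · rw [memLp_map_measure_iff measurable_id.aestronglyMeasurable hl.aemeasurable]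
    exact H.memLin w t
  · rw [integral_map hl.aemeasurable (f := fun x : ℝ => x) (by fun_prop)]
    unfold lin
    rw [integral_finsetSum _ fun j _ => (H.int1 (w j)).const_mul _]
    simp only [integral_const_mul, h1, mul_zero, Finset.sum_const_zero]
  · rw [integral_map hl.aemeasurable (f := fun x : ℝ => x ^ 2) (by fun_prop)]
    exact H.lin2 w t
  · rw [integral_map hl.aemeasurable (f := fun x : ℝ => x ^ 4) (by fun_prop)]
    exact H.lin4 w t
  · intro n hn
    obtain ⟨r, hr, hr2⟩ := hd n hn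
    have hg : Measurable (fun g : ℂ → ℝ => ∑ j, t j * g (w j)) :=
      Finset.measurable_sum _ fun j _ => (measurable_pi_apply (w j)).const_mul _
    refine ⟨r.map (fun g => ∑ j, t j * g (w j)), Measure.isProbabilityMeasure_map hg.aemeasurable,
      fun τ => ?_⟩
    rw [charFun_apply_real, charFun_apply_real, integral_map hl.aemeasurable (by fun_prop),
      integral_map hg.aemeasurable (by fun_prop)]
    have h3 := hr2 k w (fun j => τ * t j)
    have e1 : ∀ f : MW, Complex.exp (I * (lin w (fun j => τ * t j) f : ℝ)) =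
        Complex.exp (τ * (lin w t f : ℝ) * I) := by
      intro f
      congr 1
      unfold lin
      push_cast
      rw [Finset.mul_sum, Finset.mul_sum, Finset.sum_mul]
      exact Finset.sum_congr rfl fun j _ => by ring
    have e2 : ∀ g : ℂ → ℝ, Complex.exp (I * ((∑ j, τ * t j * g (w j) : ℝ) : ℂ)) =
        Complex.exp (τ * ((∑ j, t j * g (w j) : ℝ) : ℂ) * I) := by
      intro g
      congr 1
      push_cast
      rw [Finset.mul_sum, Finset.mul_sum, Finset.sum_mul]
      exact Finset.sum_congr rfl fun j _ => by ring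
    simp only [e1, e2] at h3
    exact h3

end

end Pool.Agent.N661.BR
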