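import Pool.Agent.N661.BR.Core
import Pool.Agent.N661.BR.Lin
import Pool.Agent.Y265.RW.Fn1

/-!
# Project BR: assembly
-/

set_option autoImplicit false
open MeasureTheory Filter Topology Complex ProbabilityTheory
open scoped ContDiff ENNReal

namespace Pool.Agent.N661.BR

open Pool.Agent.W745.RW (lap dx dy TF Dp Dm W Sol Sys)

/-- all parts -/
structure Parts : Prop where
  quart : S_QUART
  iso : S_ISO
  base : S_BASE
  law : S_ISO → S_LAW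
  levy : S_QUART → S_LEVY
  sec : S_SEC
  fin : S_FIN
  f4 : S_F4
  fq : S_FQ
  wien : S_WIEN
  gn : S_GN
  j0 : S_J0
  erg : S_ERG
  gau : S_GAU
  id : S_ID

section limit

variable {Ω : Set ℂ} {lam : ℕ → ℝ} {u : ℕ → ℂ → ℝ} {χ : ℝ → ℝ} {μ : Measure MW}

/-- the second moments of the balanced quadratic expressions for the limit -/
theorem limit_QV (A : Parts) (hΩ : IsOpen Ω) (hb : Bornology.IsBounded Ω) (hne : Ω.Nonempty)
    (hpos : ∀ n, 0 < lam n) (hlam : Tendsto lam atTop atTop) (hu : ∀ n, ContDiffOn ℝ ∞ (u n) Ω)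
    (heq : ∀ n, ∀ z ∈ Ω, lap (u n) z + lam n * u n z = 0) (hqe : IsQuantumErgodic Ω lam u)
    (hχ : IsCutoff χ) (hμp : IsProbabilityMeasure μ) (hμ : IsLocalLimit χ Ω lam u μ)
    (v : ℤ →₀ ℝ) (hv : Bal v) (l : ℤ) :
    ∫⁻ f : MW, ENNReal.ofReal (‖QV v l 1 f 0‖ ^ 2) ∂μ ≤ ENNReal.ofReal (KV v l) := by
  obtain ⟨σ, hσ, hlim⟩ := hμ
  have hσt := hσ.tendsto_atTop
  have hS : Sys Ω (fun n => 1 / √(lam (σ n))) (fun n => u (σ n)) :=
    Pool.Agent.Y265.RW.raw_sys Ω (fun n => lam (σ n)) (fun n => u (σ n)) (fun n => hpos _)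
      (hlam.comp hσt) (fun n => hu _) (fun n => heq _) (fun φ hφ k => (hqe φ hφ k).comp hσt)
  have hV : 0 < volume.real Ω := by
    have h1 : volume Ω ≠ ⊤ := hb.measure_lt_top.ne
    exact ENNReal.toReal_pos (hΩ.measure_pos volume hne).ne' h1
  have h0 : ∀ (k : ℕ) (c w : Fin k → ℂ), Apx Ω (volume.real Ω) (fun n => 1 / √(lam (σ n)))
      (fun n => u (σ n)) μ c (fun _ => 0) w := by
    intro k c w φ hφ hφ1 η hη
    have h1 := A.base Ω hΩ hb hne χ hχ (fun n => lam (σ n)) (fun n => hpos _) (hlam.comp hσt)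
      (fun n => u (σ n)) (fun n => hu _) k w (fun j => (c j).re)
      (∫ f, Complex.exp (I * (lin w (fun j => (c j).re) f : ℝ)) ∂μ)
      (hlim k w fun j => (c j).re) φ hφ hφ1 η hη
    refine h1.mono fun n hn => ?_
    have e1 : ∀ z, (∑ j, c j * W (1 / √(lam (σ n))) (u (σ n)) 0
        (z + ((1 / √(lam (σ n)) : ℝ) : ℂ) * w j)).re =
        ∑ j, (c j).re * u (σ n) (z + ((1 / √(lam (σ n)) : ℝ) : ℂ) * w j) := by
      intro z
      rw [Complex.re_sum]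
      refine Finset.sum_congr rfl fun j _ => ?_
      rw [W_zero, Complex.re_mul_ofReal]
    have e2 : ∀ f : MW, (∑ j, c j * W 1 f 0 (w j)).re = lin w (fun j => (c j).re) f := by
      intro f
      rw [Complex.re_sum]
      refine Finset.sum_congr rfl fun j _ => ?_
      rw [W_zero, Complex.re_mul_ofReal]
    simp only [e1, e2]
    exact hn
  have h2 := A.law A.iso Ω hΩ _ _ hS (volume.real Ω) hV μ hμp h0
  exact A.levy A.quart Ω hΩ hb hne _ _ hS μ hμp (fun k c a w => h2 k c a w) v hv l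

end limit

section mix

variable {S : Type*} [MeasurableSpace S] {P : Measure S} [IsProbabilityMeasure P]
  {κ : Kernel S MW} [IsMarkovKernel κ] {μ : Measure MW}

omit [IsProbabilityMeasure P] [IsMarkovKernel κ] in
theorem mix_QQ (A : Parts) (hκ : P.bind κ = μ)
    (hQ : ∀ v : ℤ →₀ ℝ, Bal v → ∀ l : ℤ,
      ∫⁻ f : MW, ENNReal.ofReal (‖QV v l 1 f 0‖ ^ 2) ∂μ ≤ ENNReal.ofReal (KV v l))
    (N : ℕ) (hN : 1 ≤ N) (l : ℤ) :
      ∫⁻ s, ∫⁻ f : MW, ENNReal.ofReal (‖QQ 1 f N l 0‖ ^ 2) ∂(κ s) ∂P ≤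
        ENNReal.ofReal (if l = 0 then 2 else 1) := by
  obtain ⟨h1, h2, h3⟩ := A.gn.1 N hN
  have hm : Measurable (fun f : MW => ENNReal.ofReal (‖QQ 1 f N l 0‖ ^ 2)) :=
    ENNReal.measurable_ofReal.comp ((meas_QQ N l).norm.pow_const 2)
  rw [← dis hκ hm]
  refine le_trans (le_of_eq ?_) ((hQ _ h1 l).trans (ENNReal.ofReal_le_ofReal (h2 l)))
  refine lintegral_congr fun f => ?_
  rw [h3]

omit [IsProbabilityMeasure P] [IsMarkovKernel κ] in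
theorem mix_AV (A : Parts) (hκ : P.bind κ = μ)
    (hQ : ∀ v : ℤ →₀ ℝ, Bal v → ∀ l : ℤ,
      ∫⁻ f : MW, ENNReal.ofReal (‖QV v l 1 f 0‖ ^ 2) ∂μ ≤ ENNReal.ofReal (KV v l)) (p : ℤ) :
    ∀ᵐ s ∂P, (∑' k : ℕ, (2 : ENNReal) ^ k *
      (∫⁻ f : MW, ENNReal.ofReal ((AV p (4 ^ (k + 1)) f 0 - AV p (4 ^ k) f 0) ^ 2) ∂(κ s))) ≠ ⊤ := by
  have hm : ∀ k : ℕ, Measurable (fun f : MW =>
      ENNReal.ofReal ((AV p (4 ^ (k + 1)) f 0 - AV p (4 ^ k) f 0) ^ 2)) := fun k =>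
    ENNReal.measurable_ofReal.comp (((meas_AV p _ 0).sub (meas_AV p _ 0)).pow_const 2)
  have hk : ∀ k : ℕ, ∫⁻ s, ∫⁻ f : MW,
      ENNReal.ofReal ((AV p (4 ^ (k + 1)) f 0 - AV p (4 ^ k) f 0) ^ 2) ∂(κ s) ∂P ≤
      ENNReal.ofReal (8 / 4 ^ k) := by
    intro k
    have o1 : 1 ≤ 4 ^ (k + 1) := Nat.one_le_pow _ _ (by norm_num)
    have o2 : 1 ≤ 4 ^ k := Nat.one_le_pow _ _ (by norm_num)
    obtain ⟨h1, h2, h3⟩ := A.gn.2 p (4 ^ (k + 1)) (4 ^ k) o1 o2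
    rw [← dis hκ (hm k)]
    have h4 := (hQ _ h1 0).trans (ENNReal.ofReal_le_ofReal h2)
    refine le_trans (le_of_eq ?_) (h4.trans (ENNReal.ofReal_le_ofReal ?_))
    · refine lintegral_congr fun f => ?_
      rw [h3 f 0, sq_abs]
    · have h5 : (0 : ℝ) < 4 ^ k := by positivity
      push_cast
      rw [pow_succ]
      have h6 : 1 / ((4 : ℝ) ^ k * 4) + 1 / 4 ^ k = (5 / 4) / 4 ^ k := by
        field_simp
        norm_num
      rw [h6, ← mul_div_assoc]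
      gcongr
      norm_num
  have hmm : ∀ k : ℕ, Measurable (fun s => (2 : ENNReal) ^ k * (∫⁻ f : MW,
      ENNReal.ofReal ((AV p (4 ^ (k + 1)) f 0 - AV p (4 ^ k) f 0) ^ 2) ∂(κ s))) := fun k =>
    ((hm k).lintegral_kernel).const_mul _
  have hfin : ∫⁻ s, (∑' k : ℕ, (2 : ENNReal) ^ k * (∫⁻ f : MW,
      ENNReal.ofReal ((AV p (4 ^ (k + 1)) f 0 - AV p (4 ^ k) f 0) ^ 2) ∂(κ s))) ∂P ≠ ⊤ := by
    rw [lintegral_tsum fun k => (hmm k).aemeasurable]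
    have h1 : ∀ k : ℕ, ∫⁻ s, (2 : ENNReal) ^ k * (∫⁻ f : MW,
        ENNReal.ofReal ((AV p (4 ^ (k + 1)) f 0 - AV p (4 ^ k) f 0) ^ 2) ∂(κ s)) ∂P ≤
        ENNReal.ofReal (8 * (1 / 2) ^ k) := by
      intro k
      rw [lintegral_const_mul _ ((hm k).lintegral_kernel)]
      have h2 : (2 : ENNReal) ^ k = ENNReal.ofReal (2 ^ k) := by
        rw [ENNReal.ofReal_pow (by norm_num)]; simp
      calc _ ≤ (2 : ENNReal) ^ k * ENNReal.ofReal (8 / 4 ^ k) := by gcongr; exact hk k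
        _ = ENNReal.ofReal (8 * (1 / 2) ^ k) := by
          rw [h2, ← ENNReal.ofReal_mul (by positivity)]
          congr 1
          have : (4 : ℝ) ^ k = 2 ^ k * 2 ^ k := by rw [← mul_pow]; norm_num
          rw [this, one_div, inv_pow]
          field_simp
    refine ne_top_of_le_ne_top ?_ (ENNReal.tsum_le_tsum h1)
    rw [← ENNReal.ofReal_tsum_of_nonneg (fun k => by positivity)
      ((summable_geometric_of_lt_one (by norm_num) (by norm_num)).mul_left 8)]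
    exact ENNReal.ofReal_ne_top
  exact (ae_lt_top' (AEMeasurable.tsum fun k => (hmm k).aemeasurable) hfin).mono
    fun s hs => hs.ne

omit [IsProbabilityMeasure P] [IsMarkovKernel κ] in
/-- the second moments of the components -/
theorem mix_sec (hκ : P.bind κ = μ) (hvar : ∫ f : MW, f 0 ^ 2 ∂μ = 1) {m : S → ℝ}
    {ν : S → Measure ℝ}
    (hν : ∀ᵐ s ∂P, IsProbabilityMeasure (ν s) ∧
      ∀ w w' : ℂ, ∫ f : MW, f w * f w' ∂(κ s) = m s * cov (ν s) (w - w')) :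
    (∀ᵐ s ∂P, Integrable (fun f : MW => f 0 ^ 2) (κ s)) ∧
    (∀ᵐ s ∂P, ∫⁻ f : MW, ENNReal.ofReal (f 0 ^ 2) ∂(κ s) = ENNReal.ofReal (m s)) ∧
    ∫⁻ s, ENNReal.ofReal (m s) ∂P = 1 := by
  have hi : Integrable (fun f : MW => f 0 ^ 2) μ := by
    by_contra h
    rw [integral_undef h] at hvar
    norm_num at hvar
  have hm : Measurable (fun f : MW => ENNReal.ofReal (f 0 ^ 2)) :=
    ENNReal.measurable_ofReal.comp ((meas_eval 0).pow_const 2)
  have h1 : ∫⁻ f : MW, ENNReal.ofReal (f 0 ^ 2) ∂μ = 1 := by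
    rw [← ofReal_integral_eq_lintegral_ofReal hi (Eventually.of_forall fun f => by positivity),
      hvar, ENNReal.ofReal_one]
  rw [dis hκ hm] at h1
  have h2 : ∀ᵐ s ∂P, ∫⁻ f : MW, ENNReal.ofReal (f 0 ^ 2) ∂(κ s) < ⊤ :=
    ae_lt_top' hm.lintegral_kernel.aemeasurable (by rw [h1]; norm_num)
  have h3 : ∀ᵐ s ∂P, Integrable (fun f : MW => f 0 ^ 2) (κ s) := by
    filter_upwards [h2] with s hs
    refine ⟨((meas_eval 0).pow_const 2).aestronglyMeasurable, ?_⟩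
    rw [hasFiniteIntegral_iff_ofReal (Eventually.of_forall fun f => by positivity)]
    exact hs
  have h4 : ∀ᵐ s ∂P, ∫⁻ f : MW, ENNReal.ofReal (f 0 ^ 2) ∂(κ s) = ENNReal.ofReal (m s) := by
    filter_upwards [h3, hν] with s hs1 hs2
    obtain ⟨hp, hs2⟩ := hs2
    rw [← ofReal_integral_eq_lintegral_ofReal hs1 (Eventually.of_forall fun f => by positivity)]
    have := hs2 0 0
    rw [sub_zero, cov_zero, mul_one] at this
    rw [← this]
    congr 2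
    funext f
    ring
  refine ⟨h3, h4, ?_⟩
  rw [← h1]
  exact lintegral_congr_ae (h4.mono fun s hs => hs.symm)

omit [IsMarkovKernel κ] in
/-- a mixture of random waves is a random wave -/
theorem mix_wave (hκ : P.bind κ = μ) (h : ∀ᵐ s ∂P, IsRandomWave (κ s)) : IsRandomWave μ := by
  intro k w t
  have hl : Measurable (lin w t) := by
    unfold lin
    exact Finset.measurable_sum _ fun j _ => (meas_eval (w j)).const_mul _
  ext B hB
  rw [Measure.map_apply hl hB, ← hκ, Measure.bind_apply (hl hB) κ.measurable.aemeasurable]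
  have : ∀ᵐ s ∂P, κ s (lin w t ⁻¹' B) =
      gaussianReal 0 (∑ i, ∑ j, t i * t j * J0 ‖w i - w j‖).toNNReal B := by
    filter_upwards [h] with s hs
    rw [← Measure.map_apply hl hB, hs k w t]
  rw [lintegral_congr_ae this, lintegral_const, measure_univ, mul_one]

end mix

section comp

variable {ρ : Measure MW} [IsProbabilityMeasure ρ]

omit [IsProbabilityMeasure ρ] in
theorem sq_int (hs : IsStationary ρ) (h : Integrable (fun f : MW => f 0 ^ 2) ρ) (w : ℂ) :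
    Integrable (fun f : MW => f w ^ 2) ρ := by
  have h1 : MeasurePreserving (shift w) ρ ρ := ⟨meas_shift w, hs w⟩
  have h2 := h1.integrable_comp_of_integrable h
  refine h2.congr (Eventually.of_forall fun f => ?_)
  show (f (0 + w)) ^ 2 = f w ^ 2
  rw [zero_add]

theorem erg_four (A : Parts) (hs : IsStationary ρ) (he : IsErgodic ρ)
    (h : Integrable (fun f : MW => f 0 ^ 2) ρ) {m : ℝ} {ν : Measure ℝ}
    (hν : IsProbabilityMeasure ν) (hp : parallel ν = 0)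
    (h2 : ∀ w w' : ℂ, ∫ f : MW, f w * f w' ∂ρ = m * cov ν (w - w'))
    (hA : ∀ p : ℤ, p = 0 ∨ p = 1 → (∑' k : ℕ, (2 : ENNReal) ^ k *
      (∫⁻ f : MW, ENNReal.ofReal ((AV p (4 ^ (k + 1)) f 0 - AV p (4 ^ k) f 0) ^ 2) ∂ρ)) ≠ ⊤) :
    Integrable (fun f : MW => f 0 ^ 4) ρ ∧ Four ρ m ν ∧ ∀ w : ℂ, ∫ f : MW, f w ∂ρ = 0 := by
  have h3 := A.sec ρ inferInstance (sq_int hs h) m ν hν h2
  have h4 := A.fin ρ inferInstance hs he m h3 hA
  exact ⟨h4, A.erg ρ inferInstance hs he h4 m ν hν h2 hp⟩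

end comp


section final

/-- the conclusion for one component -/
structure Good (ρ : Measure MW) : Prop where
  two : ∀ w w' : ℂ, ∫ f : MW, f w * f w' ∂ρ = J0 ‖w - w'‖
  fin : ∀ w : ℂ, Integrable (fun f : MW => f w ^ 4) ρ
  four : ∀ a b c d : ℂ, ∫ f : MW, f a * f b * f c * f d ∂ρ =
    J0 ‖a - b‖ * J0 ‖c - d‖ + J0 ‖a - c‖ * J0 ‖b - d‖ + J0 ‖a - d‖ * J0 ‖b - c‖

theorem good_of {ρ : Measure MW} {m : ℝ} {ν : Measure ℝ} (H : Four ρ m ν) (hm : m = 1)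
    (hc : ∀ w : ℂ, cov ν w = J0 ‖w‖) : Good ρ := by
  subst hm
  refine ⟨fun w w' => ?_, H.i4, fun a b c d => ?_⟩
  · rw [H.two, one_mul, hc]
  · rw [H.four', one_pow, one_mul]
    simp only [hc]

variable {Ω : Set ℂ} {lam : ℕ → ℝ} {u : ℕ → ℂ → ℝ} {χ : ℝ → ℝ} {μ : Measure MW}

theorem final (A : Parts) (hΩ : IsOpen Ω) (hb : Bornology.IsBounded Ω) (hne : Ω.Nonempty)
    (hpos : ∀ n, 0 < lam n) (hlam : Tendsto lam atTop atTop) (hu : ∀ n, ContDiffOn ℝ ∞ (u n) Ω)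
    (heq : ∀ n, ∀ z ∈ Ω, lap (u n) z + lam n * u n z = 0) (hqe : IsQuantumErgodic Ω lam u)
    (hχ : IsCutoff χ) (hμp : IsProbabilityMeasure μ) (hμ : IsLocalLimit χ Ω lam u μ) :
    ∀ v : ℤ →₀ ℝ, Bal v → ∀ l : ℤ,
      ∫⁻ f : MW, ENNReal.ofReal (‖QV v l 1 f 0‖ ^ 2) ∂μ ≤ ENNReal.ofReal (KV v l) :=
  fun v hv l => limit_QV A hΩ hb hne hpos hlam hu heq hqe hχ hμp hμ v hv l

/-- the mixture theorem, for a law `μ` which satisfies the inequalities `hQ` -/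
theorem mixture (A : Parts)
    (hQ : ∀ v : ℤ →₀ ℝ, Bal v → ∀ l : ℤ,
      ∫⁻ f : MW, ENNReal.ofReal (‖QV v l 1 f 0‖ ^ 2) ∂μ ≤ ENNReal.ofReal (KV v l))
    (hvar : ∫ f : MW, f 0 ^ 2 ∂μ = 1)
    {S : Type*} [MeasurableSpace S] {P : Measure S} [IsProbabilityMeasure P]
    {κ : Kernel S MW} [IsMarkovKernel κ] (hκ : P.bind κ = μ) (m : S → ℝ) (ν : S → Measure ℝ)
    (hν : ∀ᵐ s ∂P, IsProbabilityMeasure (ν s) ∧ parallel (ν s) = 0 ∧
      ∀ w w' : ℂ, ∫ f : MW, f w * f w' ∂(κ s) = m s * cov (ν s) (w - w'))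
    (h : ∀ᵐ s ∂P, (IsStationary (κ s) ∧ IsErgodic (κ s)) ∨ IsGaussianLaw (κ s)) :
    ∀ᵐ s ∂P, m s = 1 ∧ (∀ w : ℂ, cov (ν s) w = J0 ‖w‖) ∧ Four (κ s) (m s) (ν s) ∧
      (IsStationary (κ s) ∧ IsErgodic (κ s) → ∀ w : ℂ, ∫ f : MW, f w ∂(κ s) = 0) := by
  have hν2 : ∀ᵐ s ∂P, IsProbabilityMeasure (ν s) ∧
      ∀ w w' : ℂ, ∫ f : MW, f w * f w' ∂(κ s) = m s * cov (ν s) (w - w') :=
    hν.mono fun s hs => ⟨hs.1, hs.2.2⟩
  obtain ⟨k1, k2, k3⟩ := mix_sec hκ hvar hν2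
  have kA := fun p => mix_AV A hκ hQ p
  -- the components have Gaussian four point functions
  have four : ∀ᵐ s ∂P, Four (κ s) (m s) (ν s) ∧
      (IsStationary (κ s) ∧ IsErgodic (κ s) → ∀ w : ℂ, ∫ f : MW, f w ∂(κ s) = 0) := by
    filter_upwards [h, hν, k1, kA 0, kA 1] with s hs hs1 hs2 hs3 hs4
    have key : IsStationary (κ s) ∧ IsErgodic (κ s) →
        Four (κ s) (m s) (ν s) ∧ ∀ w : ℂ, ∫ f : MW, f w ∂(κ s) = 0 := by
      intro hs
      refine (erg_four A hs.1 hs.2 hs2 hs1.1 hs1.2.1 hs1.2.2 ?_).2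
      rintro p (rfl | rfl)
      · exact hs3
      · exact hs4
    rcases hs with hs | hs
    · exact ⟨(key hs).1, fun h => (key h).2⟩
    · exact ⟨A.gau (κ s) inferInstance hs (m s) (ν s) hs1.1 hs1.2.2, fun h => (key h).2⟩
  have done : ∀ᵐ s ∂P, m s = 1 ∧ ∀ w : ℂ, cov (ν s) w = J0 ‖w‖ := by
    refine core A.f4 A.fq A.wien A.j0 k2 k3 ?_ (fun N hN l => mix_QQ A hκ hQ N hN l)
    filter_upwards [four, hν] with s hs hs1
    exact ⟨hs1.1, hs1.2.1, hs.1⟩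
  filter_upwards [four, done] with s hs hs1
  exact ⟨hs1.1, hs1.2, hs.1, hs.2⟩

/-- ergodic components -/
theorem ergodic_case (A : Parts)
    (hQ : ∀ v : ℤ →₀ ℝ, Bal v → ∀ l : ℤ,
      ∫⁻ f : MW, ENNReal.ofReal (‖QV v l 1 f 0‖ ^ 2) ∂μ ≤ ENNReal.ofReal (KV v l))
    (hvar : ∫ f : MW, f 0 ^ 2 ∂μ = 1)
    {S : Type*} [MeasurableSpace S] {P : Measure S} [IsProbabilityMeasure P]
    {κ : Kernel S MW} [IsMarkovKernel κ] (hκ : P.bind κ = μ) (m : S → ℝ) (ν : S → Measure ℝ)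
    (hν : ∀ᵐ s ∂P, IsProbabilityMeasure (ν s) ∧ parallel (ν s) = 0 ∧
      ∀ w w' : ℂ, ∫ f : MW, f w * f w' ∂(κ s) = m s * cov (ν s) (w - w'))
    (h : ∀ᵐ s ∂P, IsStationary (κ s) ∧ IsErgodic (κ s)) : ∀ᵐ s ∂P, Good (κ s) := by
  filter_upwards [mixture A hQ hvar hκ m ν hν (h.mono fun s hs => Or.inl hs)] with s hs
  exact good_of hs.2.2.1 hs.1 hs.2.1

/-- infinitely divisible or Gaussian components -/
theorem divisible_case (A : Parts)
    (hQ : ∀ v : ℤ →₀ ℝ, Bal v → ∀ l : ℤ,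
      ∫⁻ f : MW, ENNReal.ofReal (‖QV v l 1 f 0‖ ^ 2) ∂μ ≤ ENNReal.ofReal (KV v l))
    (hvar : ∫ f : MW, f 0 ^ 2 ∂μ = 1)
    {S : Type*} [MeasurableSpace S] {P : Measure S} [IsProbabilityMeasure P]
    {κ : Kernel S MW} [IsMarkovKernel κ] (hκ : P.bind κ = μ) (m : S → ℝ) (ν : S → Measure ℝ)
    (hν : ∀ᵐ s ∂P, IsProbabilityMeasure (ν s) ∧ parallel (ν s) = 0 ∧
      ∀ w w' : ℂ, ∫ f : MW, f w * f w' ∂(κ s) = m s * cov (ν s) (w - w'))
    (h : ∀ᵐ s ∂P, (IsStationary (κ s) ∧ IsErgodic (κ s) ∧ IsInfinitelyDivisible (κ s)) ∨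
      IsGaussianLaw (κ s)) : IsRandomWave μ := by
  have h' : ∀ᵐ s ∂P, (IsStationary (κ s) ∧ IsErgodic (κ s)) ∨ IsGaussianLaw (κ s) :=
    h.mono fun s hs => hs.imp (fun hs => ⟨hs.1, hs.2.1⟩) fun hs => hs
  refine mix_wave hκ ?_
  filter_upwards [h, mixture A hQ hvar hκ m ν hν h'] with s hs0 hs
  obtain ⟨h1, h2, h3, h4⟩ := hs
  intro k w t
  rcases hs0 with hs0 | hs0
  · rw [id_wave A.id h3 (h4 ⟨hs0.1, hs0.2.1⟩) hs0.2.2 w t, h1, one_mul]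
    simp only [h2]
  · rw [hs0 k w t, h3.lin2, h1, one_mul]
    simp only [h2]

end final

end Pool.Agent.N661.BR
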