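import Pool.Agent.N661.BR.Stm
import Pool.Agent.N661.BH.Stm

/-!
# Project BR/BH, second theorem: pairs of directions
-/

set_option autoImplicit false
open MeasureTheory Filter Topology Complex ProbabilityTheory
open scoped ContDiff

namespace Pool.Agent.N661.BR

open Pool.Agent.W745.RW (lap dx dy TF Dp W Sys)
open Pool.Agent.Y265.RW (sy rr)

noncomputable section

/-- the cosine polynomial `∑ v_j cos (j x)` -/
def CP (v : ℤ →₀ ℝ) (x : ℝ) : ℝ := ∑ j ∈ v.support, v j * Real.cos ((j : ℝ) * x)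

/-- even indices and sum zero -/
def EZ (v : ℤ →₀ ℝ) : Prop := (∀ j ∈ v.support, Even j) ∧ ∑ j ∈ v.support, v j = 0

/-- BR/NUL: for ergodic stationary waves with a finite fourth moment (plane waves allowed), the
second moment of `∑ v_j |W_j|²` is the Gaussian one -/
def S_NUL : Prop := ∀ (μ : Measure MW), IsProbabilityMeasure μ → IsStationary μ → IsErgodic μ →
  Integrable (fun f : MW => f 0 ^ 4) μ → ∀ (m : ℝ) (ν : Measure ℝ), IsProbabilityMeasure ν →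
  (∀ w w' : ℂ, ∫ f : MW, f w * f w' ∂μ = m * cov ν (w - w')) → ∀ v : ℤ →₀ ℝ, EZ v →
  Integrable (fun f : MW => ‖QV v 0 1 f 0‖ ^ 2) μ →
  ∫ f : MW, ‖QV v 0 1 f 0‖ ^ 2 ∂μ =
    m ^ 2 * (2 * ∫ p : ℝ × ℝ, CP v (p.1 - p.2) ^ 2 ∂(ν.prod ν))

/-- BR/KVC -/
def S_KVC : Prop := ∀ v : ℤ →₀ ℝ, EZ v → Bal v ∧
  KV v 0 = 2 * (1 / Real.pi * ∫ x in (0:ℝ)..Real.pi, CP v x ^ 2)

/-- BR/PAIR: from cosine polynomials to measurable sets -/
def S_PAIR : Prop := ∀ M : Measure ℝ, M.map Neg.neg = M →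
  (∀ v : ℤ →₀ ℝ, EZ v → ∫⁻ x, ENNReal.ofReal (CP v x ^ 2) ∂M ≤
    ENNReal.ofReal (1 / Real.pi * ∫ x in (0:ℝ)..Real.pi, CP v x ^ 2)) →
  ∀ B : Set ℝ, MeasurableSet B → B ⊆ Set.Ioo 0 Real.pi →
    M {x | ∃ k : ℤ, x + k * Real.pi ∈ B} ≤ ENNReal.ofReal (1 / Real.pi) * volume B

/-- BR/MASS: the local limit has second moment at most one -/
def S_MASS : Prop := ∀ (Ω : Set ℂ), IsOpen Ω → Bornology.IsBounded Ω → Ω.Nonempty →
  ∀ (h : ℕ → ℝ) (u : ℕ → ℂ → ℝ), Sys Ω h u → ∀ μ : Measure MW, IsProbabilityMeasure μ →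
  (∀ (k : ℕ) (c : Fin k → ℂ) (a : Fin k → ℤ) (w : Fin k → ℂ),
    Apx Ω (volume.real Ω) h u μ c a w) →
    ∫⁻ f : MW, ENNReal.ofReal (f 0 ^ 2) ∂μ ≤ 1

/-- BH/MASSH: the same in the abstract setting -/
def S_MASSH : Prop := ∀ (Z : Type) (_ : MeasurableSpace Z) (P : Measure Z)
  (X : ℕ → ℤ → ℂ → Z → ℂ) (φ : ℕ → Z → ℝ) (μ : Measure MW), Pool.Agent.N661.BH.Dat P X φ μ →
    ∫⁻ f : MW, ENNReal.ofReal (f 0 ^ 2) ∂μ ≤ 1

end

end Pool.Agent.N661.BR
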