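import Pool.Agent.N661.BR.Main
import Pool.Agent.N661.BR.Stm2

/-!
# Project BR, second theorem: assembly
-/

set_option autoImplicit false
open MeasureTheory Filter Topology Complex ProbabilityTheory
open scoped ContDiff ENNReal

namespace Pool.Agent.N661.BR

open Pool.Agent.W745.RW (lap dx dy TF Dp Dm W Sol Sys)

theorem meas_QV (v : ℤ →₀ ℝ) (l : ℤ) : Measurable (fun f : MW => QV v l 1 f 0) := by
  unfold QV
  exact Finset.measurable_sum _ fun j _ => ((meas_W j 0).mul (meas_W _ 0)).const_mul _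

theorem CP_cont (v : ℤ →₀ ℝ) : Continuous (CP v) := by
  unfold CP
  fun_prop

theorem CP_bd (v : ℤ →₀ ℝ) (x : ℝ) : |CP v x| ≤ ∑ j ∈ v.support, |v j| := by
  unfold CP
  refine (Finset.abs_sum_le_sum_abs _ _).trans (Finset.sum_le_sum fun j _ => ?_)
  rw [abs_mul]
  exact mul_le_of_le_one_right (abs_nonneg _) (Real.abs_cos_le_one _)

section

variable {S : Type*} [MeasurableSpace S] {P : Measure S} [IsProbabilityMeasure P]
  {κ : Kernel S MW} [IsMarkovKernel κ] {μ : Measure MW}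

omit [IsProbabilityMeasure P] [IsMarkovKernel κ] in
/-- the second moments of the components, if the second moment of the mixture is finite -/
theorem mix_sec' (hκ : P.bind κ = μ) (hmass : ∫⁻ f : MW, ENNReal.ofReal (f 0 ^ 2) ∂μ ≠ ⊤)
    {m : S → ℝ} {ν : S → Measure ℝ}
    (hν : ∀ᵐ s ∂P, IsProbabilityMeasure (ν s) ∧
      ∀ w w' : ℂ, ∫ f : MW, f w * f w' ∂(κ s) = m s * cov (ν s) (w - w')) :
    (∀ᵐ s ∂P, Integrable (fun f : MW => f 0 ^ 2) (κ s)) ∧
    (∀ᵐ s ∂P, (∫⁻ f : MW, ENNReal.ofReal (f 0 ^ 2) ∂(κ s)).toReal = m s) := by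
  have hm : Measurable (fun f : MW => ENNReal.ofReal (f 0 ^ 2)) :=
    ENNReal.measurable_ofReal.comp ((meas_eval 0).pow_const 2)
  rw [dis hκ hm] at hmass
  have h2 : ∀ᵐ s ∂P, ∫⁻ f : MW, ENNReal.ofReal (f 0 ^ 2) ∂(κ s) < ⊤ :=
    ae_lt_top' hm.lintegral_kernel.aemeasurable hmass
  have h3 : ∀ᵐ s ∂P, Integrable (fun f : MW => f 0 ^ 2) (κ s) := by
    filter_upwards [h2] with s hs
    refine ⟨((meas_eval 0).pow_const 2).aestronglyMeasurable, ?_⟩
    rw [hasFiniteIntegral_iff_ofReal (Eventually.of_forall fun f => by positivity)]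
    exact hs
  refine ⟨h3, ?_⟩
  filter_upwards [h3, hν] with s hs1 hs2
  obtain ⟨hp, hs2⟩ := hs2
  rw [← ofReal_integral_eq_lintegral_ofReal hs1 (Eventually.of_forall fun f => by positivity),
    ENNReal.toReal_ofReal (integral_nonneg fun f => by positivity)]
  have := hs2 0 0
  rw [sub_zero, cov_zero, mul_one] at this
  rw [← this]
  congr 1
  funext f
  ring

end

section

variable {S : Type*} [MeasurableSpace S]

/-- the kernel of the differences of two independent directions -/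
noncomputable def DK (ν : Kernel S ℝ) : Kernel S ℝ := (ν ×ₖ ν).map (fun p : ℝ × ℝ => p.1 - p.2)

theorem sub_meas : Measurable (fun p : ℝ × ℝ => p.1 - p.2) := measurable_fst.sub measurable_snd

theorem DK_lint (ν : Kernel S ℝ) [IsMarkovKernel ν] (s : S) {g : ℝ → ℝ≥0∞} (hg : Measurable g) :
    ∫⁻ x, g x ∂(DK ν s) = ∫⁻ p, g (p.1 - p.2) ∂((ν s).prod (ν s)) := by
  unfold DK
  rw [Kernel.map_apply _ sub_meas, lintegral_map hg sub_meas, Kernel.prod_apply]

theorem DK_apply (ν : Kernel S ℝ) [IsMarkovKernel ν] (s : S) {A : Set ℝ} (hA : MeasurableSet A) :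
    DK ν s A = ((ν s).prod (ν s)) {p | p.1 - p.2 ∈ A} := by
  unfold DK
  rw [Kernel.map_apply _ sub_meas, Measure.map_apply sub_meas hA, Kernel.prod_apply]
  rfl

theorem DK_neg (ν : Kernel S ℝ) [IsMarkovKernel ν] (s : S) {A : Set ℝ} (hA : MeasurableSet A) :
    DK ν s (Neg.neg ⁻¹' A) = DK ν s A := by
  rw [DK_apply ν s hA, DK_apply ν s (measurable_neg hA)]
  have h := Measure.prod_swap (μ := ν s) (ν := ν s)
  have hm : MeasurableSet {p : ℝ × ℝ | p.1 - p.2 ∈ A} := sub_meas hA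
  conv_rhs => rw [← h, Measure.map_apply measurable_swap hm]
  congr 1
  ext p
  show -(p.1 - p.2) ∈ A ↔ p.2 - p.1 ∈ A
  rw [neg_sub]

variable (P : Measure S) (w : S → ℝ≥0∞) (ν : Kernel S ℝ)

/-- the weighted law of the differences -/
noncomputable def MM : Measure ℝ := (P.withDensity w).bind (DK ν)

variable {P w ν}

theorem MM_lint [IsMarkovKernel ν] (hw : Measurable w) {g : ℝ → ℝ≥0∞} (hg : Measurable g) :
    ∫⁻ x, g x ∂(MM P w ν) = ∫⁻ s, w s * ∫⁻ p, g (p.1 - p.2) ∂((ν s).prod (ν s)) ∂P := by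
  unfold MM
  rw [Measure.lintegral_bind (DK ν).measurable.aemeasurable hg.aemeasurable,
    lintegral_withDensity_eq_lintegral_mul _ hw hg.lintegral_kernel]
  refine lintegral_congr fun s => ?_
  rw [Pi.mul_apply, DK_lint ν s hg]

theorem MM_neg [IsMarkovKernel ν] : (MM P w ν).map Neg.neg = MM P w ν := by
  ext A hA
  rw [Measure.map_apply measurable_neg hA]
  unfold MM
  rw [Measure.bind_apply hA (DK ν).measurable.aemeasurable,
    Measure.bind_apply (measurable_neg hA) (DK ν).measurable.aemeasurable]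
  refine lintegral_congr fun s => ?_
  exact DK_neg ν s hA

theorem MM_apply [IsMarkovKernel ν] (hw : Measurable w) {A : Set ℝ} (hA : MeasurableSet A) :
    MM P w ν A = ∫⁻ s, w s * ((ν s).prod (ν s)) {p | p.1 - p.2 ∈ A} ∂P := by
  rw [← lintegral_indicator_one hA, MM_lint hw (measurable_one.indicator hA)]
  refine lintegral_congr fun s => ?_
  congr 1
  have hm : MeasurableSet {p : ℝ × ℝ | p.1 - p.2 ∈ A} := sub_meas hA
  rw [← lintegral_indicator_one hm]
  rfl

end

/-- **The pair inequality.** -/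
theorem pairs (A : Parts) (nul : S_NUL) (kvc : S_KVC) (pair : S_PAIR) {μ : Measure MW}
    (hQ : ∀ v : ℤ →₀ ℝ, Bal v → ∀ l : ℤ,
      ∫⁻ f : MW, ENNReal.ofReal (‖QV v l 1 f 0‖ ^ 2) ∂μ ≤ ENNReal.ofReal (KV v l))
    (hmass : ∫⁻ f : MW, ENNReal.ofReal (f 0 ^ 2) ∂μ ≤ 1)
    {S : Type*} [MeasurableSpace S] {P : Measure S} [IsProbabilityMeasure P]
    {κ : Kernel S MW} [IsMarkovKernel κ] (hκ : P.bind κ = μ) (m : S → ℝ)
    (ν : Kernel S ℝ) [IsMarkovKernel ν] (herg : ∀ᵐ s ∂P, IsStationary (κ s) ∧ IsErgodic (κ s))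
    (hν : ∀ᵐ s ∂P, ∀ w w' : ℂ, ∫ f : MW, f w * f w' ∂(κ s) = m s * cov (ν s) (w - w'))
    (B : Set ℝ) (hB : MeasurableSet B) (hB' : B ⊆ Set.Ioo 0 Real.pi) :
    ∫⁻ s, ENNReal.ofReal (m s ^ 2) *
        ((ν s).prod (ν s)) {p | ∃ k : ℤ, p.1 - p.2 + k * Real.pi ∈ B} ∂P ≤
      ENNReal.ofReal (1 / Real.pi) * volume B := by
  have hν2 : ∀ᵐ s ∂P, IsProbabilityMeasure (ν s) ∧
      ∀ w w' : ℂ, ∫ f : MW, f w * f w' ∂(κ s) = m s * cov (ν s) (w - w') :=
    hν.mono fun s hs => ⟨inferInstance, hs⟩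
  obtain ⟨k1, k2⟩ := mix_sec' hκ (ne_top_of_le_ne_top ENNReal.one_ne_top hmass) hν2
  have kA := fun p => mix_AV A hκ hQ p
  -- the measurable version of the mass
  set m' : S → ℝ := fun s => (∫⁻ f : MW, ENNReal.ofReal (f 0 ^ 2) ∂(κ s)).toReal with hm'
  have hm0 : Measurable (fun f : MW => ENNReal.ofReal (f 0 ^ 2)) :=
    ENNReal.measurable_ofReal.comp ((meas_eval 0).pow_const 2)
  have hm'm : Measurable m' := hm0.lintegral_kernel.ennreal_toReal
  set w : S → ℝ≥0∞ := fun s => ENNReal.ofReal (m' s ^ 2) with hw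
  have hwm : Measurable w := ENNReal.measurable_ofReal.comp (hm'm.pow_const 2)
  -- the second moments of the quadratic expressions of the components
  have key : ∀ v : ℤ →₀ ℝ, EZ v → ∀ᵐ s ∂P,
      w s * ∫⁻ p, ENNReal.ofReal (CP v (p.1 - p.2) ^ 2) ∂((ν s).prod (ν s)) =
        ENNReal.ofReal (1 / 2) * ∫⁻ f : MW, ENNReal.ofReal (‖QV v 0 1 f 0‖ ^ 2) ∂(κ s) := by
    intro v hv
    have hQm : Measurable (fun f : MW => ENNReal.ofReal (‖QV v 0 1 f 0‖ ^ 2)) :=
      ENNReal.measurable_ofReal.comp ((meas_QV v 0).norm.pow_const 2)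
    have h1 := hQ v (kvc v hv).1 0
    rw [dis hκ hQm] at h1
    have h2 : ∀ᵐ s ∂P, ∫⁻ f : MW, ENNReal.ofReal (‖QV v 0 1 f 0‖ ^ 2) ∂(κ s) < ⊤ :=
      ae_lt_top' hQm.lintegral_kernel.aemeasurable (ne_top_of_le_ne_top ENNReal.ofReal_ne_top h1)
    filter_upwards [h2, herg, hν, k1, k2, kA 0, kA 1] with s hs hs1 hs2 hs3 hs4 hs5 hs6
    have i1 : Integrable (fun f : MW => ‖QV v 0 1 f 0‖ ^ 2) (κ s) := by
      refine ⟨((meas_QV v 0).norm.pow_const 2).aestronglyMeasurable, ?_⟩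
      rw [hasFiniteIntegral_iff_ofReal (Eventually.of_forall fun f => by positivity)]
      exact hs
    have h3 := A.sec (κ s) inferInstance (sq_int hs1.1 hs3) (m s) (ν s) inferInstance hs2
    have h4 := A.fin (κ s) inferInstance hs1.1 hs1.2 (m s) h3 (by
      rintro p (rfl | rfl)
      · exact hs5
      · exact hs6)
    have h5 := nul (κ s) inferInstance hs1.1 hs1.2 h4 (m s) (ν s) inferInstance hs2 v hv i1
    have i2 : Integrable (fun p : ℝ × ℝ => CP v (p.1 - p.2) ^ 2) ((ν s).prod (ν s)) := by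
      refine Integrable.mono' (integrable_const ((∑ j ∈ v.support, |v j|) ^ 2))
        (((CP_cont v).comp (continuous_fst.sub continuous_snd)).pow 2).aestronglyMeasurable
        (Eventually.of_forall fun p => ?_)
      rw [norm_pow, Real.norm_eq_abs]
      exact pow_le_pow_left₀ (abs_nonneg _) (CP_bd v _) 2
    rw [← ofReal_integral_eq_lintegral_ofReal i1 (Eventually.of_forall fun f => by positivity), h5,
      ← ofReal_integral_eq_lintegral_ofReal i2 (Eventually.of_forall fun p => by positivity),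
      hw]
    simp only
    have hs4' : m' s = m s := hs4
    rw [hs4', ← ENNReal.ofReal_mul (by positivity), ← ENNReal.ofReal_mul (by norm_num)]
    congr 1
    ring
  have hM : ∀ v : ℤ →₀ ℝ, EZ v → ∫⁻ x, ENNReal.ofReal (CP v x ^ 2) ∂(MM P w ν) ≤
      ENNReal.ofReal (1 / Real.pi * ∫ x in (0:ℝ)..Real.pi, CP v x ^ 2) := by
    intro v hv
    have hQm : Measurable (fun f : MW => ENNReal.ofReal (‖QV v 0 1 f 0‖ ^ 2)) :=
      ENNReal.measurable_ofReal.comp ((meas_QV v 0).norm.pow_const 2)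
    have hC : Measurable (fun x => ENNReal.ofReal (CP v x ^ 2)) :=
      ENNReal.measurable_ofReal.comp ((CP_cont v).measurable.pow_const 2)
    rw [MM_lint hwm hC, lintegral_congr_ae (key v hv), lintegral_const_mul _ hQm.lintegral_kernel, ← dis hκ hQm]
    have h1 := hQ v (kvc v hv).1 0
    rw [(kvc v hv).2] at h1
    refine (mul_le_mul_right h1 _).trans (le_of_eq ?_)
    rw [← ENNReal.ofReal_mul (by norm_num)]
    congr 1
    ring
  have h1 := pair (MM P w ν) MM_neg hM B hB hB'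
  have hA : MeasurableSet {x : ℝ | ∃ k : ℤ, x + k * Real.pi ∈ B} := by
    have e : {x : ℝ | ∃ k : ℤ, x + k * Real.pi ∈ B} = ⋃ k : ℤ, (fun x => x + k * Real.pi) ⁻¹' B := by
      ext x
      simp
    rw [e]
    exact MeasurableSet.iUnion fun k => (measurable_id.add_const _) hB
  rw [MM_apply hwm hA] at h1
  refine le_trans (le_of_eq (lintegral_congr_ae ?_)) h1
  filter_upwards [k2] with s hs
  rw [hw]
  simp only
  have hs' : m' s = m s := hs
  rw [hs']

end Pool.Agent.N661.BR
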