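import Pool.Agent.N661.BR.Stm3

/-!
# Project BR/BH, fourth part: the local limits are stationary
-/

set_option autoImplicit false
open MeasureTheory Filter Topology Complex ProbabilityTheory
open scoped ContDiff

namespace Pool.Agent.N661.BR

open Pool.Agent.W745.RW (lap dx dy TF Dp W Sys)
open Pool.Agent.Y265.RW (sy rr)

noncomputable section

/-- BR/STAT: local limits are stationary -/
def S_STAT : Prop := ∀ (Ω : Set ℂ), IsOpen Ω → Bornology.IsBounded Ω → Ω.Nonempty →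
  ∀ (h : ℕ → ℝ) (u : ℕ → ℂ → ℝ), Sys Ω h u → ∀ μ : Measure MW, IsProbabilityMeasure μ →
  (∀ (k : ℕ) (c : Fin k → ℂ) (a : Fin k → ℤ) (w : Fin k → ℂ),
    Apx Ω (volume.real Ω) h u μ c a w) → IsStationary μ

/-- BH/STATH: Benjamini-Schramm limits are stationary -/
def S_STATH : Prop := ∀ (Ω : Set ℂ), IsOpen Ω → Ω ⊆ Pool.Agent.N661.BH.HP → Ω.Nonempty →
  IntegrableOn (fun z : ℂ => 1 / z.im ^ 2) Ω → ∀ (lam : ℕ → ℝ), (∀ n, 0 < lam n) →
  Tendsto lam atTop atTop → ∀ (u : ℕ → ℂ → ℝ), (∀ n, ContDiffOn ℝ ∞ (u n) Pool.Agent.N661.BH.HP) →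
  (∀ n, ∀ z ∈ Pool.Agent.N661.BH.HP, z.im ^ 2 * lap (u n) z + lam n * u n z = 0) →
  Pool.Agent.N661.BH.IsQuantumErgodic Ω lam u →
  ∀ μ : Measure MW, IsProbabilityMeasure μ → Pool.Agent.N661.BH.IsLocalLimit Ω lam u μ →
  IsStationary μ

end

end Pool.Agent.N661.BR
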